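import Pool.Agent.Y773.HG.Defs
import Pool.Agent.W388.TW.D0

/-!
# Project D4 (owner helper773): Artin L-functions of degree four.  Definitions and statements

`M` is a number field of degree four containing `i`, `σ` the nontrivial automorphism of `M` over
`ℚ(i)`, `Nm` the relative norm of ideals from `M` to `ℤ[i]`.
-/

set_option autoImplicit false

open NumberField

namespace Pool.Agent.Y773.D4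

open Pool.Agent.Y773 (VM)
open Pool.Agent.Y773.G (IsPrimChar)

/-- `χ` is a primitive character of `(ℤ[i]/q)ˣ`, extended by zero to `ℤ[i]`, with `χ(i) = 1` -/
structure GC (q : GaussianInt) (χ : GaussianInt →* ℂ) : Prop where
  q0 : q ≠ 0
  per : ∀ a b : GaussianInt, q ∣ a - b → χ a = χ b
  supp : ∀ a : GaussianInt, χ a ≠ 0 ↔ IsCoprime a q
  nrm : ∀ a : GaussianInt, IsCoprime a q → ‖χ a‖ = 1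
  unit : χ ⟨0, 1⟩ = 1
  prim : ∀ d : GaussianInt, d ∣ q → ¬ q ∣ d → ∃ a : GaussianInt, IsCoprime a q ∧ d ∣ a - 1 ∧ χ a ≠ 1

/-- the value of `χ` at an ideal of `ℤ[i]` -/
noncomputable def chI (χ : GaussianInt →* ℂ) (𝔫 : Ideal GaussianInt) : ℂ :=
  χ (Submodule.IsPrincipal.generator 𝔫)

/-- the norm of an ideal of `ℤ[i]` -/
noncomputable def nI (𝔫 : Ideal GaussianInt) : ℕ :=
  (Submodule.IsPrincipal.generator 𝔫).norm.natAbs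

section

variable {M : Type} [Field M] [NumberField M]

/-- an automorphism of `M`, on the ring of integers -/
noncomputable def sg (σ : M ≃ₐ[ℚ] M) : 𝓞 M ≃+* 𝓞 M := RingOfIntegers.mapRingEquiv (σ : M ≃+* M)

/-- `σ(𝔞)` -/
noncomputable def cj (σ : M ≃ₐ[ℚ] M) (𝔞 : Ideal (𝓞 M)) : Ideal (𝓞 M) := 𝔞.map (sg σ)

variable [Algebra GaussianInt (𝓞 M)]

/-- the ideal `z 𝓞_M` -/
noncomputable def up (M : Type) [Field M] [NumberField M] [Algebra GaussianInt (𝓞 M)]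
    (z : GaussianInt) : Ideal (𝓞 M) := Ideal.span {algebraMap GaussianInt (𝓞 M) z}

/-- the basic properties of `σ` and of the relative norm -/
structure Rel (σ : M ≃ₐ[ℚ] M) (Nm : Ideal (𝓞 M) →*₀ Ideal GaussianInt) : Prop where
  deg : Module.finrank ℚ M = 4
  inj : Function.Injective (algebraMap GaussianInt (𝓞 M))
  sg2 : ∀ x : 𝓞 M, sg σ (sg σ x) = x
  fix : ∀ z : GaussianInt, sg σ (algebraMap GaussianInt (𝓞 M) z) = algebraMap GaussianInt (𝓞 M) z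
  ex : ∀ x : 𝓞 M, ∃ z : GaussianInt, algebraMap GaussianInt (𝓞 M) z = x * sg σ x
  nm1 : ∀ (x : 𝓞 M) (z : GaussianInt), algebraMap GaussianInt (𝓞 M) z = x * sg σ x →
    Nm (Ideal.span {x}) = Ideal.span {z}
  nm2 : ∀ 𝔞 : Ideal (𝓞 M), (Nm 𝔞).map (algebraMap GaussianInt (𝓞 M)) = 𝔞 * cj σ 𝔞
  nm3 : ∀ 𝔞 : Ideal (𝓞 M), nI (Nm 𝔞) = Ideal.absNorm 𝔞
  nm4 : ∀ 𝔞 : Ideal (𝓞 M), Nm (cj σ 𝔞) = Nm 𝔞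
  th : ∃ (θ : 𝓞 M) (α r : GaussianInt), α ≠ 0 ∧ r ≠ 0 ∧ θ ^ 2 = algebraMap GaussianInt (𝓞 M) α ∧
    sg σ θ = -θ ∧ ∀ x : 𝓞 M, ∃ a b : GaussianInt, algebraMap GaussianInt (𝓞 M) r * x =
      algebraMap GaussianInt (𝓞 M) a + algebraMap GaussianInt (𝓞 M) b * θ

/-- `∑_{Nm 𝔞 = 𝔫} Λ(𝔞) φ(𝔞)` -/
noncomputable def be (Nm : Ideal (𝓞 M) →*₀ Ideal GaussianInt) (φ : Ideal (𝓞 M) →*₀ ℂ)
    (𝔫 : Ideal GaussianInt) : ℂ :=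
  ∑ᶠ 𝔞 ∈ {𝔞 : Ideal (𝓞 M) | Nm 𝔞 = 𝔫}, (VM 𝔞 : ℂ) * φ 𝔞

/-- `Λ(m) cS(m)` is the `ℓ²` norm of the coefficients of norm `m` -/
noncomputable def cS (Nm : Ideal (𝓞 M) →*₀ Ideal GaussianInt) (φ : Ideal (𝓞 M) →*₀ ℂ) (m : ℕ) : ℂ :=
  ((Real.sqrt (∑ᶠ 𝔫 ∈ {𝔫 : Ideal GaussianInt | nI 𝔫 = m}, ‖be Nm φ 𝔫‖ ^ 2) /
    ArithmeticFunction.vonMangoldt m : ℝ) : ℂ)

end

section

variable {M : Type} [Field M] [NumberField M] [Algebra GaussianInt (𝓞 M)]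

/-- **TL** : elementary consequences of `Rel` -/
structure Tls (σ : M ≃ₐ[ℚ] M) (Nm : Ideal (𝓞 M) →*₀ Ideal GaussianInt) : Prop where
  /-- `M` has no real embeddings -/
  tpos : ∀ x : 𝓞 M, Pool.Agent.Y773.TPos M x
  span : ∀ (q : GaussianInt) (χ : GaussianInt →* ℂ), GC q χ → ∀ z : GaussianInt,
    chI χ (Ideal.span {z}) = χ z
  mul : ∀ (q : GaussianInt) (χ : GaussianInt →* ℂ), GC q χ → ∀ 𝔪 𝔫 : Ideal GaussianInt,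
    chI χ (𝔪 * 𝔫) = chI χ 𝔪 * chI χ 𝔫
  ne : ∀ (q : GaussianInt) (χ : GaussianInt →* ℂ), GC q χ → ∀ 𝔞 : Ideal (𝓞 M),
    (chI χ (Nm 𝔞) ≠ 0 ↔ IsCoprime 𝔞 (up M q))
  norm1 : ∀ (q : GaussianInt) (χ : GaussianInt →* ℂ), GC q χ → ∀ 𝔞 : Ideal (𝓞 M),
    IsCoprime 𝔞 (up M q) → ‖chI χ (Nm 𝔞)‖ = 1
  dvd : ∀ a b : GaussianInt, up M a ∣ up M b ↔ a ∣ b
  up_mul : ∀ a b : GaussianInt, up M (a * b) = up M a * up M b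
  cj_up : ∀ z : GaussianInt, cj σ (up M z) = up M z
  cj_mul : ∀ 𝔞 𝔟 : Ideal (𝓞 M), cj σ (𝔞 * 𝔟) = cj σ 𝔞 * cj σ 𝔟
  cj_cj : ∀ 𝔞 : Ideal (𝓞 M), cj σ (cj σ 𝔞) = 𝔞
  cj_dvd : ∀ 𝔞 𝔟 : Ideal (𝓞 M), 𝔞 ∣ 𝔟 → cj σ 𝔞 ∣ cj σ 𝔟
  cj_prime : ∀ P : Ideal (𝓞 M), Prime P → Prime (cj σ P)
  cj_span : ∀ x : 𝓞 M, cj σ (Ideal.span {x}) = Ideal.span {sg σ x}
  ovr : ∀ P : Ideal (𝓞 M), Prime P → ∃ p : GaussianInt, Prime p ∧ P ∣ up M p ∧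
    ∀ z : GaussianInt, P ∣ up M z → p ∣ z
  above : ∀ p : GaussianInt, Prime p → ∀ P Q : Ideal (𝓞 M), Prime P → Prime Q → P ∣ up M p →
    Q ∣ up M p → Q = P ∨ Q = cj σ P

end

/-- **TL** : elementary consequences. -/
def St_TL : Prop := ∀ (M : Type) [Field M] [NumberField M] [Algebra GaussianInt (𝓞 M)]
  (σ : M ≃ₐ[ℚ] M) (Nm : Ideal (𝓞 M) →*₀ Ideal GaussianInt), Rel σ Nm → Tls σ Nm

/-- **REL** : the relative norm of a quadratic extension of `ℚ(i)`. -/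
def St_REL : Prop := ∀ (M : Type) [Field M] [NumberField M] [Algebra GaussianInt (𝓞 M)],
  Module.finrank ℚ M = 4 → ∀ σ : M ≃ₐ[ℚ] M, σ ≠ 1 →
  (∀ z : GaussianInt, sg σ (algebraMap GaussianInt (𝓞 M) z) = algebraMap GaussianInt (𝓞 M) z) →
  ∃ Nm : Ideal (𝓞 M) →*₀ Ideal GaussianInt, Rel σ Nm

/-- **TWA** : the primitive character inducing `φ · χ∘Nm`. -/
def St_TWA : Prop := ∀ (M : Type) [Field M] [NumberField M] [Algebra GaussianInt (𝓞 M)]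
  (σ : M ≃ₐ[ℚ] M) (Nm : Ideal (𝓞 M) →*₀ Ideal GaussianInt), Rel σ Nm →
  ∀ (𝔣 : Ideal (𝓞 M)) (φ : Ideal (𝓞 M) →*₀ ℂ), IsPrimChar M 𝔣 φ →
  ∀ (q : GaussianInt) (χ : GaussianInt →* ℂ), GC q χ → ¬ IsUnit q →
  (∀ x : 𝓞 M, IsCoprime (Ideal.span {x}) (𝔣 * up M q) →
    φ (Ideal.span {x}) * chI χ (Nm (Ideal.span {x})) = 1) ∨
  ∃ (𝔠 : Ideal (𝓞 M)) (ψ : Ideal (𝓞 M) →*₀ ℂ), 𝔠 ≠ ⊤ ∧ IsPrimChar M 𝔠 ψ ∧ 𝔠 ∣ 𝔣 * up M q ∧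
    ∀ 𝔞, IsCoprime 𝔞 (𝔣 * up M q) → ψ 𝔞 = φ 𝔞 * chI χ (Nm 𝔞)

/-- **TWB** : the conductor of `φ · χ∘Nm` is large: test elements. -/
def St_TWB : Prop := ∀ (M : Type) [Field M] [NumberField M] [Algebra GaussianInt (𝓞 M)]
  (σ : M ≃ₐ[ℚ] M) (Nm : Ideal (𝓞 M) →*₀ Ideal GaussianInt), Rel σ Nm →
  ∀ (𝔣 : Ideal (𝓞 M)) (φ : Ideal (𝓞 M) →*₀ ℂ), IsPrimChar M 𝔣 φ →
  ∃ R : ℕ, R ≠ 0 ∧ (R : 𝓞 M) ∈ 𝔣 ∧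
    ∀ (q : GaussianInt) (χ : GaussianInt →* ℂ), GC q χ → ∀ p q1 : GaussianInt, Prime p →
      ¬ p ∣ (R : GaussianInt) → q = p * q1 →
      ∃ x : 𝓞 M, x ≠ 0 ∧ x - 1 ∈ 𝔣 * up M q1 ∧ IsCoprime (Ideal.span {x}) (𝔣 * up M q) ∧
        φ (Ideal.span {x}) = 1 ∧ chI χ (Nm (Ideal.span {x})) ≠ 1

/-- **TWS** : the conductor is large at one of the primes above `p`, and almost invariant. -/
def St_TWS : Prop := ∀ (M : Type) [Field M] [NumberField M] [Algebra GaussianInt (𝓞 M)]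
  (σ : M ≃ₐ[ℚ] M) (Nm : Ideal (𝓞 M) →*₀ Ideal GaussianInt), Rel σ Nm →
  ∀ (𝔣 : Ideal (𝓞 M)) (φ : Ideal (𝓞 M) →*₀ ℂ), IsPrimChar M 𝔣 φ →
  ∃ R : ℕ, R ≠ 0 ∧ (R : 𝓞 M) ∈ 𝔣 ∧
    ∀ (q : GaussianInt) (χ : GaussianInt →* ℂ), GC q χ →
      (∃ p : GaussianInt, Prime p ∧ p ∣ q ∧ ¬ p ∣ (R : GaussianInt)) →
      ∃ (𝔠 : Ideal (𝓞 M)) (ψ : Ideal (𝓞 M) →*₀ ℂ), 𝔠 ≠ ⊤ ∧ IsPrimChar M 𝔠 ψ ∧
        𝔠 ∣ 𝔣 * up M q ∧ (∀ 𝔞, IsCoprime 𝔞 (𝔣 * up M q) → ψ 𝔞 = φ 𝔞 * chI χ (Nm 𝔞)) ∧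
        (∀ p q1 : GaussianInt, Prime p → ¬ p ∣ (R : GaussianInt) → q = p * q1 →
          ¬ 𝔠 ∣ 𝔣 * up M q1) ∧
        𝔠 ∣ Ideal.span {(R : 𝓞 M)} * cj σ 𝔠

/-- **UNR** : almost all primes are unramified. -/
def St_UNR : Prop := ∀ (M : Type) [Field M] [NumberField M] [Algebra GaussianInt (𝓞 M)]
  (σ : M ≃ₐ[ℚ] M) (Nm : Ideal (𝓞 M) →*₀ Ideal GaussianInt), Rel σ Nm →
  ∃ R : ℕ, R ≠ 0 ∧ ∀ p : GaussianInt, Prime p → ¬ p ∣ (R : GaussianInt) →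
    ∀ P : Ideal (𝓞 M), Prime P → ¬ P ^ 2 ∣ up M p

/-- **TW** : the primitive character inducing `φ · χ∘Nm` and its conductor. -/
def St_TW : Prop := ∀ (M : Type) [Field M] [NumberField M] [Algebra GaussianInt (𝓞 M)]
  (σ : M ≃ₐ[ℚ] M) (Nm : Ideal (𝓞 M) →*₀ Ideal GaussianInt), Rel σ Nm →
  ∀ (𝔣 : Ideal (𝓞 M)) (φ : Ideal (𝓞 M) →*₀ ℂ), IsPrimChar M 𝔣 φ →
  ∃ R : ℕ, R ≠ 0 ∧ (R : 𝓞 M) ∈ 𝔣 ∧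
    ∀ (q : GaussianInt) (χ : GaussianInt →* ℂ), GC q χ →
      (∃ p : GaussianInt, Prime p ∧ p ∣ q ∧ ¬ p ∣ (R : GaussianInt)) →
      ∃ (𝔠 : Ideal (𝓞 M)) (ψ : Ideal (𝓞 M) →*₀ ℂ), 𝔠 ≠ ⊤ ∧ IsPrimChar M 𝔠 ψ ∧
        𝔠 ∣ 𝔣 * up M q ∧ (∀ 𝔞, IsCoprime 𝔞 (𝔣 * up M q) → ψ 𝔞 = φ 𝔞 * chI χ (Nm 𝔞)) ∧
        (∀ 𝔞, IsCoprime 𝔞 (Ideal.span {(R : 𝓞 M)}) → ψ 𝔞 = φ 𝔞 * chI χ (Nm 𝔞)) ∧
        ∀ d : GaussianInt, d ∣ q → IsCoprime d (R : GaussianInt) → up M d ∣ 𝔠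

/-- **IRR** : the twisted characters are not invariant under automorphisms. -/
def St_IRR : Prop := ∀ (M : Type) [Field M] [NumberField M] [Algebra GaussianInt (𝓞 M)]
  (σ : M ≃ₐ[ℚ] M) (Nm : Ideal (𝓞 M) →*₀ Ideal GaussianInt), Rel σ Nm →
  ∀ (𝔣 : Ideal (𝓞 M)) (φ : Ideal (𝓞 M) →*₀ ℂ), IsPrimChar M 𝔣 φ → (∃ 𝔞, φ (cj σ 𝔞) ≠ φ 𝔞) →
  ∀ R : ℕ, R ≠ 0 → (R : 𝓞 M) ∈ 𝔣 → ∀ (q : GaussianInt) (χ : GaussianInt →* ℂ), GC q χ →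
  ∀ (𝔠 : Ideal (𝓞 M)) (ψ : Ideal (𝓞 M) →*₀ ℂ), IsPrimChar M 𝔠 ψ → 𝔠 ∣ 𝔣 * up M q →
  (∀ 𝔞, IsCoprime 𝔞 (𝔣 * up M q) → ψ 𝔞 = φ 𝔞 * chI χ (Nm 𝔞)) →
  (∃ p : GaussianInt, Prime p ∧ p ∣ q ∧ ¬ p ∣ (R : GaussianInt) ∧ ¬ star p ∣ q ∧ up M p ∣ 𝔠) →
  ∀ g : M ≃ₐ[ℚ] M, g ≠ 1 → ∃ 𝔞, ψ (cj g 𝔞) ≠ ψ 𝔞

/-- **SEL** : weak Selberg orthonormality of the coefficients. -/
def St_SEL : Prop := ∀ (M : Type) [Field M] [NumberField M] [Algebra GaussianInt (𝓞 M)]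
  (σ : M ≃ₐ[ℚ] M) (Nm : Ideal (𝓞 M) →*₀ Ideal GaussianInt), Rel σ Nm →
  ∀ (𝔣 : Ideal (𝓞 M)) (φ : Ideal (𝓞 M) →*₀ ℂ), IsPrimChar M 𝔣 φ → (∃ 𝔞, φ (cj σ 𝔞) ≠ φ 𝔞) →
  W388.SelE (cS Nm φ)

open Classical in
/-- **LSM** : from the large sieve over `ℤ[i]` to sums over the norms of the ideals of `M`. -/
def St_LSM : Prop := ∀ (M : Type) [Field M] [NumberField M] [Algebra GaussianInt (𝓞 M)]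
  (σ : M ≃ₐ[ℚ] M) (Nm : Ideal (𝓞 M) →*₀ Ideal GaussianInt), Rel σ Nm →
  ∀ (φ : Ideal (𝓞 M) →*₀ ℂ) (I : Type) (S : Finset I) (w : I → ℝ) (χ : I → GaussianInt →* ℂ)
    (P : GaussianInt) (N : ℕ) (A : ℝ) (B : Finset GaussianInt),
  (∀ i ∈ S, 0 ≤ w i ∧ χ i ⟨0, 1⟩ = 1) → 0 ≤ A →
  (∀ n : GaussianInt, n ∈ B ↔ n ≠ 0 ∧ n.norm.natAbs ≤ N) →
  (∀ b : GaussianInt → ℂ, (∀ n, ¬ IsCoprime n P → b n = 0) →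
    ∑ i ∈ S, w i * ‖∑ n ∈ B, b n * χ i n‖ ^ 2 ≤ 4 * A * ∑ n ∈ B, ‖b n‖ ^ 2) →
  ∀ v : ℕ → ℂ, ∑ i ∈ S, w i * ‖∑ m ∈ Finset.Icc 1 N, v m *
      (if Nat.Coprime m P.norm.natAbs then
        ∑ᶠ 𝔞 ∈ {𝔞 : Ideal (𝓞 M) | Ideal.absNorm 𝔞 = m}, (VM 𝔞 : ℂ) * (φ 𝔞 * chI (χ i) (Nm 𝔞))
      else 0)‖ ^ 2 ≤
    A * ∑ m ∈ Finset.Icc 1 N, ‖v m‖ ^ 2 *
      (ArithmeticFunction.vonMangoldt m * ‖cS Nm φ m‖) ^ 2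

/-- `q` has a prime divisor which does not divide `R` and whose conjugate does not divide `q` -/
def Gd (R : ℕ) (q : GaussianInt) : Prop :=
  ∃ p : GaussianInt, Prime p ∧ p ∣ q ∧ ¬ p ∣ (R : GaussianInt) ∧ ¬ star p ∣ q

open Classical in
/-- **MASS** : almost all moduli have a large divisor prime to `R`, and a suitable prime divisor. -/
def St_MASS : Prop := ∀ R : ℕ, R ≠ 0 → ∃ d : GaussianInt → GaussianInt,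
  (∀ q : GaussianInt, q ≠ 0 → d q ≠ 0 ∧ d q ∣ q ∧ IsCoprime (d q) (R : GaussianInt)) ∧
  (∃ C : ℝ, 0 < C ∧ ∀ (X Y : ℕ) (S : Finset GaussianInt), 1 ≤ X → X ≤ Y →
    (∀ q ∈ S, X < q.norm.natAbs ∧ q.norm.natAbs ≤ Y) →
    ∑ q ∈ S, (Real.log (q.norm.natAbs : ℝ) - Real.log ((d q).norm.natAbs : ℝ)) /
      (q.norm.natAbs : ℝ) ≤ C * (Real.log ((Y : ℝ) / X) + 1)) ∧
  ∀ δ : ℝ, 0 < δ → ∃ C : ℝ, 0 < C ∧ ∀ (X Y : ℕ) (S : Finset GaussianInt), 1 ≤ X → X ≤ Y →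
    (∀ q ∈ S, X < q.norm.natAbs ∧ q.norm.natAbs ≤ Y) →
    ∑ q ∈ S.filter (fun q => ¬ Gd R q), 1 / (q.norm.natAbs : ℝ) ≤
      δ * Real.log ((Y : ℝ) / X) + C

end Pool.Agent.Y773.D4
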