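import Pool.Agent.Y773.IQ.Msq

/-!
# The mean square hypothesis from a large sieve inequality, with weights

As `Pool.Agent.Y773.IQ.Msq`, with normalised weights and a fixed modulus.
-/

open Complex Filter Topology Set MeasureTheory

set_option autoImplicit false

namespace Pool.Agent.Y773.D4

open ArithmeticFunction (vonMangoldt)
open H385 W388 Pool.Agent.W398.LV Pool.Agent.Y655.HC Pool.Agent.Y773.IQ

/-- the mean square at a point -/
theorem ptw {ι : Type} (s : Finset ι) (ω : ι → ℝ) (hω : ∀ i ∈ s, 0 ≤ ω i)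
    (hω1 : ∑ i ∈ s, ω i = 1) (c : ℕ → ℂ) (a : ι → ℕ → ℂ) (M q : ℕ)
    (hq : 1 ≤ q)
    (d D T u t δ : ℝ) (hu : 0 ≤ u) (hd : 0 ≤ d) (hD : 0 ≤ D) (hT : 0 ≤ T) (hδ : 0 < δ)
    (h0 : ∀ i ∈ s, ∀ n : ℕ, ‖a i n‖ ≤ d * vonMangoldt n)
    (hLS : ∀ b : ℕ → ℂ, ∑ i ∈ s, ω i * ‖∑ m ∈ Finset.Icc 1 M, b m *
        (if Nat.Coprime m q then a i m else 0)‖ ^ 2 ≤
      D * ∑ m ∈ Finset.Icc 1 M, ‖b m‖ ^ 2 * (vonMangoldt m * ‖c m‖) ^ 2)
    (ht : ∑' n : ℕ, (if M < n then vonMangoldt n * Real.exp (-(u - Real.log n) ^ 2 / 4) else 0) ≤ 1) :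
    ∑ i ∈ s, ω i * ‖∑' n : ℕ, a i n * ww T u t n‖ ^ 2 ≤
      (1 + δ) * D * ∑ n ∈ Finset.Icc 1 M, vonMangoldt n ^ 2 * ‖c n * ww T u t n‖ ^ 2 +
      (1 + 1 / δ) * d ^ 2 * (1 + Gq q u) ^ 2 * wt T t ^ 2 := by
  have hw := H385.wt_nonneg T t hT
  have hG := Gq_nonneg q u
  choose! r hr1 hr2 using fun i (hi : i ∈ s) => split_q M q (a i) d T u t hq hu hd hT (h0 i hi) ht
  have e1 : ∀ i ∈ s, ω i * ‖∑' n : ℕ, a i n * ww T u t n‖ ^ 2 ≤
      (1 + δ) * (ω i * ‖∑ m ∈ Finset.Icc 1 M, ww T u t m *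
        (if Nat.Coprime m q then a i m else 0)‖ ^ 2) +
        ω i * ((1 + 1 / δ) * d ^ 2 * (1 + Gq q u) ^ 2 * wt T t ^ 2) := by
    intro i hi
    rw [hr2 i hi]
    have h1 := norm_add_sq_le (∑ m ∈ Finset.Icc 1 M,
      (if Nat.Coprime m q then a i m else 0) * ww T u t m) (r i) δ hδ
    have h3 : ‖r i‖ ^ 2 ≤ (d * wt T t * (1 + Gq q u)) ^ 2 :=
      pow_le_pow_left₀ (norm_nonneg _) (hr1 i hi) 2
    have h2 : ∑ m ∈ Finset.Icc 1 M, (if Nat.Coprime m q then a i m else 0) * ww T u t m =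
        ∑ m ∈ Finset.Icc 1 M, ww T u t m * (if Nat.Coprime m q then a i m else 0) :=
      Finset.sum_congr rfl fun _ _ => mul_comm _ _
    have h5 : ‖∑ m ∈ Finset.Icc 1 M, (if Nat.Coprime m q then a i m else 0) * ww T u t m + r i‖ ^ 2 ≤
        (1 + δ) * ‖∑ m ∈ Finset.Icc 1 M, ww T u t m *
          (if Nat.Coprime m q then a i m else 0)‖ ^ 2 +
        (1 + 1 / δ) * (d * wt T t * (1 + Gq q u)) ^ 2 := by
      rw [h2] at h1 ⊢
      exact h1.trans (add_le_add le_rfl (mul_le_mul_of_nonneg_left h3 (by positivity)))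
    have h6 := mul_le_mul_of_nonneg_left h5 (hω i hi)
    refine h6.trans (le_of_eq ?_)
    ring
  refine (Finset.sum_le_sum e1).trans ?_
  rw [Finset.sum_add_distrib, ← Finset.mul_sum, ← Finset.sum_mul, hω1, one_mul]
  have g1 : ∑ i ∈ s, ω i * ‖∑ m ∈ Finset.Icc 1 M, ww T u t m *
        (if Nat.Coprime m q then a i m else 0)‖ ^ 2 ≤
      D * ∑ n ∈ Finset.Icc 1 M, vonMangoldt n ^ 2 * ‖c n * ww T u t n‖ ^ 2 := by
    refine (hLS (fun m => ww T u t m)).trans (le_of_eq ?_)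
    congr 1
    refine Finset.sum_congr rfl fun n _ => ?_
    rw [norm_mul]
    ring
  refine add_le_add ?_ le_rfl
  calc (1 + δ) * (∑ i ∈ s, ω i * ‖∑ m ∈ Finset.Icc 1 M, ww T u t m *
        (if Nat.Coprime m q then a i m else 0)‖ ^ 2) ≤
      (1 + δ) * (D * ∑ n ∈ Finset.Icc 1 M, vonMangoldt n ^ 2 * ‖c n * ww T u t n‖ ^ 2) :=
        mul_le_mul_of_nonneg_left g1 (by positivity)
    _ = _ := by ring

/-- the mean square, integrated -/
theorem int_ptw {c : ℕ → ℂ} (hcm : MeanC c) :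
    ∃ C0 : ℝ, 0 < C0 ∧ ∀ (δ d D : ℝ), 0 < δ → 0 ≤ d → 0 ≤ D → ∀ {ι : Type} (s : Finset ι)
      (ω : ι → ℝ) (a : ι → ℕ → ℂ) (M q : ℕ) (T κ u : ℝ), (∀ i ∈ s, 0 ≤ ω i) →
      ∑ i ∈ s, ω i = 1 → 1 ≤ q → 0 ≤ u → 1 ≤ κ → 1 ≤ T →
      T ≤ Real.exp (κ ^ 2) →
    (∀ i ∈ s, ∀ n : ℕ, ‖a i n‖ ≤ d * vonMangoldt n) →
    (∀ b : ℕ → ℂ, ∑ i ∈ s, ω i * ‖∑ m ∈ Finset.Icc 1 M, b m *
        (if Nat.Coprime m q then a i m else 0)‖ ^ 2 ≤
      D * ∑ m ∈ Finset.Icc 1 M, ‖b m‖ ^ 2 * (vonMangoldt m * ‖c m‖) ^ 2) →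
    (∑' n : ℕ, (if M < n then vonMangoldt n *
      Real.exp (-(u - Real.log n) ^ 2 / 4) else 0) ≤ 1) →
    ∫ t : ℝ, ∑ i ∈ s, ω i * ‖∑' n : ℕ, a i n *
        ((Real.sqrt n : ℂ)⁻¹ * bt T u t (Real.log n))‖ ^ 2 ≤
      (1 + δ) * D * (T / (2 * Real.pi) * SWu c 1 u + C0 * κ * SWu c (1 / 2) u) +
      (T + C0) * ((1 + 1 / δ) * d ^ 2 * (1 + Gq q u) ^ 2) := by
  obtain ⟨C5, hC5, h5⟩ := btc_sum_int_E hcm
  obtain ⟨C7, hC7, h7⟩ := wt_sq_int
  refine ⟨C5 + C7, by positivity, ?_⟩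
  intro δ d D hδ hd hD ι s ω a M q T κ u hω hω1 hq hu hκ hT hTκ h0 hLS ht
  have hT0 : 0 ≤ T := by linarith
  obtain ⟨i1, i2⟩ := h5 T κ u M hκ hT hTκ
  obtain ⟨j1, j2⟩ := h7 T hT0
  have hS1 := SWu_nonneg c 1 u
  have hS2 := SWu_nonneg c (1 / 2) u
  obtain ⟨D1, hD1⟩ : ∃ x : ℝ, x = (1 + δ) * D := ⟨_, rfl⟩
  obtain ⟨E, hE⟩ : ∃ x : ℝ, x = (1 + 1 / δ) * d ^ 2 * (1 + Gq q u) ^ 2 := ⟨_, rfl⟩
  have hE0 : 0 ≤ E := by rw [hE]; positivity
  have hD0 : 0 ≤ D1 := by rw [hD1]; positivity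
  rw [← hD1, ← hE]
  calc _ ≤ ∫ t : ℝ, (D1 * ∑ n ∈ Finset.Icc 1 M, (vonMangoldt n) ^ 2 *
          ‖c n * ((Real.sqrt n : ℂ)⁻¹ * bt T u t (Real.log n))‖ ^ 2 + E * wt T t ^ 2) := by
        refine integral_mono_of_nonneg ?_ ?_ ?_
        · refine Filter.Eventually.of_forall (fun t => ?_)
          exact Finset.sum_nonneg fun i hi => mul_nonneg (hω i hi) (sq_nonneg _)
        · exact (i1.const_mul _).add (j1.const_mul _)
        · refine Filter.Eventually.of_forall (fun t => ?_)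
          rw [hD1, hE]
          exact ptw s ω hω hω1 c a M q hq d D T u t δ hu hd hD hT0 hδ h0 hLS ht
    _ = D1 * (∫ t : ℝ, ∑ n ∈ Finset.Icc 1 M, (vonMangoldt n) ^ 2 *
          ‖c n * ((Real.sqrt n : ℂ)⁻¹ * bt T u t (Real.log n))‖ ^ 2) +
          E * (∫ t : ℝ, wt T t ^ 2) := by
        rw [integral_add (i1.const_mul _) (j1.const_mul _), integral_const_mul, integral_const_mul]
    _ ≤ D1 * (T / (2 * Real.pi) * SWu c 1 u + C5 * κ * SWu c (1 / 2) u) + E * (T + C7) := by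
        exact add_le_add (mul_le_mul_of_nonneg_left i2 hD0) (mul_le_mul_of_nonneg_left j2 hE0)
    _ ≤ _ := by
        refine add_le_add ?_ ?_
        · refine mul_le_mul_of_nonneg_left ?_ hD0
          have : C5 ≤ C5 + C7 := by linarith
          gcongr
        · rw [mul_comm]
          have e2 : T + C7 ≤ T + (C5 + C7) := by linarith
          exact mul_le_mul e2 le_rfl hE0 (by positivity)

/-- **MSQ, coprime version with weights** -/
theorem msqW (c : ℕ → ℂ) (hsel : W388.SelE c) (d D : ℝ) (hd : 1 ≤ d) (hD : 1 ≤ D)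
    (J : Type) (ι : J → Type) (s : (j : J) → Finset (ι j)) (ω : (j : J) → ι j → ℝ) (X : J → ℝ)
    (q : ℕ) (a : (j : J) → ι j → ℕ → ℂ) (hq1 : 1 ≤ q)
    (hω : ∀ j, (∀ i ∈ s j, 0 ≤ ω j i) ∧ ∑ i ∈ s j, ω j i = 1)
    (hX : ∀ j, 1 ≤ X j ∧ (q : ℝ) ≤ (X j) ^ d)
    (ha : ∀ j, ∀ i ∈ s j, ∀ m, ‖a j i m‖ ≤ d * ArithmeticFunction.vonMangoldt m)
    (γ β ε0 : ℝ) (h0 : 0 < γ) (hπ : γ < Real.pi) (hβ : 0 < β) (hε0 : 0 < ε0) (hε01 : ε0 < 1)
    (hβd : β ≤ d * (1 - 3 * ε0))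
    (hLS : ∃ X0 : ℝ, ∀ j, X0 ≤ X j → ∀ M : ℕ,
      (M : ℝ) ≤ (X j) ^ (d * (1 - ε0)) → ∀ b : ℕ → ℂ,
      ∑ i ∈ s j, ω j i * ‖∑ m ∈ Finset.Icc 1 M, b m *
          (if Nat.Coprime m q then a j i m else 0)‖ ^ 2 ≤
        D * ∑ m ∈ Finset.Icc 1 M,
          ‖b m‖ ^ 2 * (ArithmeticFunction.vonMangoldt m * ‖c m‖) ^ 2) :
    W388.LV.HYL s ω X a γ β
      (2 * β * (∫ α in (0 : ℝ)..1, α * Rw γ α) * D) := by
  intro ε hε
  have hD0 : 0 < D := by linarith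
  have hd0 : 0 < d := by linarith
  obtain ⟨ε', hε'd⟩ : ∃ ε' : ℝ, ε' = ε / 2 / D := ⟨_, rfl⟩
  have hε' : 0 < ε' := by rw [hε'd]; positivity
  have hε'D : ε' * D = ε / 2 := by rw [hε'd]; field_simp
  obtain ⟨s1, s2, s3, s4, ⟨Cs, hCs, s5, s6, s7, s8⟩, s9⟩ := Pool.Agent.W261.TW.t_smooth c hsel
  obtain ⟨n1, _, _, _⟩ := W566TW.t_noncop c hsel
  have hcm : MeanC c := ⟨n1, s2⟩
  have hs : SmC c Cs := ⟨s3, s4, s5, s6, s7, s8, s9⟩
  obtain ⟨ε1, hε1, hε1', hfin⟩ := YF_final hcm hCs hs γ β h0 hπ hβ ε' hε'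
  obtain ⟨C0, hC0, hint⟩ := int_ptw hcm
  obtain ⟨δ, hδd⟩ : ∃ δ : ℝ, δ = ε1 / 2 := ⟨_, rfl⟩
  have hδ : 0 < δ := by rw [hδd]; positivity
  have hbd : β / d ≤ 1 - 3 * ε0 := by
    rw [div_le_iff₀ hd0]
    linarith
  have hbd0 : 0 < β / d := by positivity
  obtain ⟨Lt, hLt, htail⟩ := tail_leY (2 * β / d) ε0 hε0 (by
    have : 2 * β / d / 2 = β / d := by ring
    rw [this]
    linarith)
  obtain ⟨N1, hN1⟩ := hLS
  obtain ⟨E, hEd⟩ : ∃ E : ℝ, E = 2 * ((1 + 1 / δ) * d ^ 2) := ⟨_, rfl⟩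
  have hE0 : 0 < E := by rw [hEd]; positivity
  obtain ⟨L0, hL0, hY⟩ := hfin C0 E hC0 hE0
  obtain ⟨B, hBd⟩ : ∃ B : ℝ, B = (1 + C0) * E := ⟨_, rfl⟩
  have hB : 0 < B := by rw [hBd]; positivity
  obtain ⟨L2, hL2, herr⟩ := err_part γ β (ε / 2) B d h0 hπ hβ (by positivity) hB hd
  refine ⟨1, Real.exp (max (max (max L0 L2) (2 * Lt / d)) 1) + |N1|, one_pos, ?_, ?_⟩
  · have h1 : (1 : ℝ) ≤ Real.exp (max (max (max L0 L2) (2 * Lt / d)) 1) :=
      Real.one_le_exp (le_max_of_le_right zero_le_one)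
    have h2 : (0 : ℝ) ≤ |N1| := abs_nonneg _
    linarith
  intro j T hXj hT1 hT2
  have h2 : (0 : ℝ) ≤ |N1| := abs_nonneg _
  have hXe : Real.exp (max (max (max L0 L2) (2 * Lt / d)) 1) ≤ X j := by linarith
  have hexp1 : (0 : ℝ) < Real.exp (max (max (max L0 L2) (2 * Lt / d)) 1) := Real.exp_pos _
  have hXpos : 0 < X j := lt_of_lt_of_le hexp1 hXe
  have hX1 : 1 ≤ X j := (hX j).1
  have hNN1 : N1 ≤ X j := by
    have := le_abs_self N1
    linarith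
  obtain ⟨L, hL⟩ : ∃ L : ℝ, L = Real.log (X j) := ⟨_, rfl⟩
  rw [← hL] at hT1 ⊢
  have hLmax : max (max (max L0 L2) (2 * Lt / d)) 1 ≤ L := by
    rw [hL, Real.le_log_iff_exp_le hXpos]; exact hXe
  have hLL02 : max L0 L2 ≤ L := ((le_max_left _ _).trans (le_max_left _ _)).trans hLmax
  have hLL0 : L0 ≤ L := (le_max_left _ _).trans hLL02
  have hLL2 : L2 ≤ L := (le_max_right _ _).trans hLL02
  have hLLt : 2 * Lt / d ≤ L := ((le_max_right _ _).trans (le_max_left _ _)).trans hLmax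
  have hL1 : 1 ≤ L := (le_max_right _ _).trans hLmax
  have hTn : 1 ≤ T := (one_le_pow₀ hL1).trans hT1
  have hTe : T ≤ Real.exp (L ^ 2) := by
    refine hT2.trans ?_
    rw [Real.rpow_one]
    calc X j = Real.exp L := by rw [hL, Real.exp_log hXpos]
      _ ≤ _ := Real.exp_le_exp.mpr (le_self_pow₀ hL1 two_ne_zero)
  have hq0 : (0 : ℝ) < q := by exact_mod_cast hq1
  have hlogq : Real.log q ≤ d * L := by
    have := Real.log_le_log hq0 (hX j).2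
    rwa [Real.log_rpow hXpos, ← hL] at this
  have hW : ∑ i ∈ s j, ω j i = 1 := (hω j).2
  simp only [hW]
  have hD1W : (1 + δ) * D ≤ (1 + 11 * ε1) * D := by
    refine mul_le_mul_of_nonneg_right ?_ hD0.le
    rw [hδd]
    linarith
  obtain ⟨y1, y2, hy1, hy2, m1, m2, m3⟩ := hY L T ((1 + δ) * D) D 0 hLL0 le_rfl hT1
    (by linarith) (by positivity) hD1W
  obtain ⟨y3, hy3, k1, k2, k3⟩ := herr q L T hq1 hLL2 hlogq hTn
  have hL0' : 0 ≤ L := by linarith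
  have hT0' : 0 ≤ T := by linarith
  have hΛ0 : 0 < β * L := by positivity
  have hYEc := YE_cont hs ((1 + δ) * D) T L C0 E 0
  have hGc := Gq_cont q
  have hEc : Continuous (fun u : ℝ => B * T * Gq q u ^ 2) := by fun_prop
  refine ⟨fun u => YE c ((1 + δ) * D) T L C0 E 0 u + B * T * Gq q u ^ 2, y1, y2 + y3, hy1,
    by positivity, ?_, ?_, (hYEc.add hEc).intervalIntegrable _ _, ?_, ?_⟩
  rotate_left
  · intro u hu
    have a1 := m1 u hu
    have a2 := k1 u hu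
    calc _ ≤ T * (y1 * (u + 1) + y2) + T * y3 := add_le_add a1 a2
      _ = _ := by ring
  · have hRc := Rw_cont γ h0 hπ
    have hRc' : Continuous (fun u : ℝ => Rw γ (u / (β * L))) :=
      hRc.comp (continuous_id.div_const _)
    have e1 : ∫ u in (0 : ℝ)..(β * L), Rw γ (u / (β * L)) *
        (YE c ((1 + δ) * D) T L C0 E 0 u + B * T * Gq q u ^ 2) =
        (∫ u in (0 : ℝ)..(β * L), Rw γ (u / (β * L)) * YE c ((1 + δ) * D) T L C0 E 0 u) +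
        ∫ u in (0 : ℝ)..(β * L), Rw γ (u / (β * L)) * (B * T * Gq q u ^ 2) := by
      rw [← intervalIntegral.integral_add]
      · refine intervalIntegral.integral_congr fun u _ => ?_
        ring
      · exact (hRc'.mul hYEc).intervalIntegrable _ _
      · exact (hRc'.mul hEc).intervalIntegrable _ _
    rw [e1, mul_add]
    refine (add_le_add m3 k3).trans (le_of_eq ?_)
    rw [mul_one]
    have e2 : T / (2 * Real.pi) * L * D * (2 * β * (∫ α in (0 : ℝ)..1, α * Rw γ α) + ε') =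
        T / (2 * Real.pi) * L * (2 * β * (∫ α in (0 : ℝ)..1, α * Rw γ α) * D + ε' * D) := by ring
    rw [e2, hε'D]
    ring
  · rw [Real.sqrt_one, mul_one]
    have q1 : Real.sqrt D ≤ D := by
      rw [Real.sqrt_le_left (by linarith)]
      nlinarith
    have q2 : Real.sqrt (y2 + y3) ≤ Real.sqrt y2 + Real.sqrt y3 := by
      rw [Real.sqrt_le_left (by positivity)]
      have b1 := Real.sq_sqrt hy2
      have b2 := Real.sq_sqrt hy3
      have b3 : 0 ≤ Real.sqrt y2 * Real.sqrt y3 := by positivity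
      nlinarith
    have q3 : ε' * L * Real.sqrt D ≤ ε / 2 * L := by
      calc ε' * L * Real.sqrt D ≤ ε' * L * D := mul_le_mul_of_nonneg_left q1 (by positivity)
        _ = (ε' * D) * L := by ring
        _ = _ := by rw [hε'D]
    linarith
  intro u hu
  obtain ⟨Y, hYd⟩ : ∃ Y : ℝ, Y = (X j) ^ d := ⟨_, rfl⟩
  have hY0 : 0 < Y := by rw [hYd]; exact Real.rpow_pos_of_pos hXpos _
  have hlogY : Real.log (Real.sqrt Y) = d / 2 * L := by
    rw [Real.log_sqrt hY0.le, hYd, Real.log_rpow hXpos, hL]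
    ring
  have hYe : Y ^ (1 - ε0) = (X j) ^ (d * (1 - ε0)) := by
    rw [hYd, ← Real.rpow_mul hXpos.le]
  have ht := htail Y u hY0 (by
      rw [hlogY]
      rw [div_le_iff₀ hd0] at hLLt
      linarith) hu.1 (by
      rw [hlogY]
      have : 2 * β / d * (d / 2 * L) = β * L := by field_simp
      rw [this]
      exact hu.2)
  rw [hYe] at ht
  have h := hint δ d D hδ hd0.le hD0.le (s j) (ω j) (a j) ⌊(X j) ^ (d * (1 - ε0))⌋₊ q T L u
    (hω j).1 (hω j).2 hq1 hu.1 hL1 hTn hTe (fun i hi n => ha j i hi n)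
    (fun b => hN1 j hNN1 _ (Nat.floor_le (by positivity)) b) ht
  refine h.trans ?_
  have hG := Gq_nonneg q u
  have hsq : (1 + Gq q u) ^ 2 ≤ 2 + 2 * Gq q u ^ 2 := by
    have e : 2 + 2 * Gq q u ^ 2 - (1 + Gq q u) ^ 2 = (Gq q u - 1) ^ 2 := by ring
    have e1 := sq_nonneg (Gq q u - 1)
    rw [← e] at e1
    exact sub_nonneg.mp e1
  have h9 : (T + C0) * ((1 + 1 / δ) * d ^ 2 * (1 + Gq q u) ^ 2) ≤
      (T + C0) * E + B * T * Gq q u ^ 2 := by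
    have b1 : (1 + 1 / δ) * d ^ 2 * (1 + Gq q u) ^ 2 ≤ E + E * Gq q u ^ 2 := by
      calc (1 + 1 / δ) * d ^ 2 * (1 + Gq q u) ^ 2 ≤
          (1 + 1 / δ) * d ^ 2 * (2 + 2 * Gq q u ^ 2) :=
            mul_le_mul_of_nonneg_left hsq (by positivity)
        _ = _ := by rw [hEd]; ring
    have b2 : T + C0 ≤ (1 + C0) * T := by
      have e2 : (1 + C0) * T = T + C0 * T := by ring
      rw [e2]
      exact add_le_add le_rfl (le_mul_of_one_le_right hC0.le hTn)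
    calc _ ≤ (T + C0) * (E + E * Gq q u ^ 2) := mul_le_mul_of_nonneg_left b1 (by positivity)
      _ = (T + C0) * E + (T + C0) * (E * Gq q u ^ 2) := by ring
      _ ≤ (T + C0) * E + ((1 + C0) * T) * (E * Gq q u ^ 2) := by
          have := mul_le_mul_of_nonneg_right b2 (show 0 ≤ E * Gq q u ^ 2 by positivity)
          linarith
      _ = _ := by rw [hBd]; ring
  unfold YE
  have hWu := Wu_nonneg c u
  have h10 : (T + C0) * E ≤ (T + C0) * (E * (0 + 1) * (Wu c u + 1)) := by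
    refine mul_le_mul_of_nonneg_left ?_ (by positivity)
    calc E = E * (0 + 1) * 1 := by ring
      _ ≤ _ := mul_le_mul_of_nonneg_left (by linarith) (by positivity)
  linarith

end Pool.Agent.Y773.D4
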