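import Pool.Agent.Y773.D4.Ls
import Pool.Agent.Y773.D4.MsW
import Pool.Agent.Y773.IQ.Core
import Pool.Agent.Y773.IQ.Asm

/-! # 67.25 per cent of the zeros, Artin L-functions of degree four -/

set_option autoImplicit false

open NumberField Filter Topology MeasureTheory

namespace Pool.Agent.Y773.D4

open Pool.Agent.Y773 (VM cc)
open Pool.Agent.Y773.IQ (LL LL_eq)
open Pool.Agent.H82R3.AR (FS PFs Wm)
open H385 (ZI RQ chiZ PrimC nrm BX wF im1 Rw)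
open H370 (zset NN Ns Nd)

/-- the constants -/
theorem consts4 : ∃ γ β D ε θ ε0 : ℝ, 0 < γ ∧ γ < Real.pi ∧ 0 < β ∧ 0 < ε0 ∧ ε0 < 1 ∧
    β ≤ 4 * (1 - 3 * ε0) ∧ 1 < D ∧ 0 < ε ∧ 0 < θ ∧ θ < 1 ∧ 0 ≤ Rw γ 0 ∧
    0 ≤ 2 * β * (∫ α in (0 : ℝ)..1, α * Rw γ α) * D ∧
    (4 * Rw γ 0 / β + 2 * β * (∫ α in (0 : ℝ)..1, α * Rw γ α) * D / 4 + ε) * θ⁻¹ ≤ 1.3275 := by
  obtain ⟨γ, hγ⟩ : ∃ γ : ℝ, γ = 1.414 := ⟨_, rfl⟩
  have h0 : 0 < γ := by rw [hγ]; norm_num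
  have hπ : γ < Real.pi := by rw [hγ]; linarith [Real.pi_gt_three]
  have hconst := H385.Rw_const_d2
  rw [← hγ] at hconst
  obtain ⟨R, hR⟩ : ∃ R : ℝ, R = Rw γ 0 := ⟨_, rfl⟩
  obtain ⟨I1, hI1⟩ : ∃ I1 : ℝ, I1 = ∫ α in (0 : ℝ)..1, α * Rw γ α := ⟨_, rfl⟩
  have hR0 : 0 ≤ R := by rw [hR]; exact H385.Rw_nonneg γ h0 hπ 0
  have hI0 : 0 ≤ I1 := by
    rw [hI1]
    exact intervalIntegral.integral_nonneg zero_le_one
      (fun α hα => mul_nonneg hα.1 (H385.Rw_nonneg γ h0 hπ α))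
  rw [← hR, ← hI1] at hconst
  have hcont : ContinuousAt (fun t : ℝ => (R / t + 2 * I1 * t * (2 - t) + (1 - t)) / t) 1 := by
    have : (1 : ℝ) ≠ 0 := one_ne_zero
    fun_prop (disch := assumption)
  have hlt : (fun t : ℝ => (R / t + 2 * I1 * t * (2 - t) + (1 - t)) / t) 1 < 1.3275 := by
    change (R / 1 + 2 * I1 * 1 * (2 - 1) + (1 - 1)) / 1 < 1.3275
    linarith
  have hev := hcont.eventually_lt_const hlt
  obtain ⟨r, hr, hball⟩ := Metric.eventually_nhds_iff.mp hev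
  obtain ⟨t, ht⟩ : ∃ t : ℝ, t = 1 - min (r / 2) (1 / 2) := ⟨_, rfl⟩
  have hm1 : 0 < min (r / 2) (1 / 2) := lt_min (by positivity) (by norm_num)
  have hm2 : min (r / 2) (1 / 2) ≤ 1 / 2 := min_le_right _ _
  have hm3 : min (r / 2) (1 / 2) ≤ r / 2 := min_le_left _ _
  have ht1 : t < 1 := by linarith
  have ht0 : 1 / 2 ≤ t := by linarith
  have htr := hball (y := t) (by rw [Real.dist_eq, abs_lt]; constructor <;> linarith)
  change (R / t + 2 * I1 * t * (2 - t) + (1 - t)) / t < 1.3275 at htr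
  refine ⟨γ, 4 * t, 2 - t, 1 - t, t, (1 - t) / 3, h0, hπ, by linarith, by linarith, by linarith,
    by linarith, by linarith, by linarith, by linarith, ht1, by rw [← hR]; exact hR0, ?_, ?_⟩
  · rw [← hI1]
    have : 0 ≤ 2 - t := by linarith
    positivity
  · rw [← hR, ← hI1]
    have e1 : 4 * R / (4 * t) = R / t := by
      rw [mul_div_mul_left _ _ (by norm_num)]
    rw [e1]
    have e2 : 2 * (4 * t) * I1 * (2 - t) / 4 = 2 * I1 * t * (2 - t) := by ring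
    rw [e2, ← div_eq_mul_inv]
    exact htr.le

section

variable {M : Type} [Field M] [NumberField M] [Algebra GaussianInt (𝓞 M)]

lemma absNorm_up {σ : M ≃ₐ[ℚ] M} {Nm : Ideal (𝓞 M) →*₀ Ideal GaussianInt} (hrel : Rel σ Nm)
    (z : ZI) : Ideal.absNorm (up M z) = nrm z ^ 2 := by
  have h1 := hrel.nm1 (algebraMap GaussianInt (𝓞 M) z) (z * z) (by
    rw [map_mul, hrel.fix])
  have h2 := hrel.nm3 (Ideal.span {algebraMap GaussianInt (𝓞 M) z})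
  rw [h1] at h2
  unfold up
  rw [← h2]
  unfold nI
  have h3 : Associated (Submodule.IsPrincipal.generator (Ideal.span {z * z})) (z * z) := by
    rw [← Ideal.span_singleton_eq_span_singleton]
    exact Ideal.span_singleton_generator _
  obtain ⟨u, hu⟩ := h3
  have h4 : (Submodule.IsPrincipal.generator (Ideal.span {z * z})).norm.natAbs =
      (z * z).norm.natAbs := by
    have h5 : ((u : GaussianInt)).norm.natAbs = 1 := Zsqrtd.norm_eq_one_iff.2 u.isUnit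
    have h6 : (Submodule.IsPrincipal.generator (Ideal.span {z * z})).norm.natAbs *
        ((u : GaussianInt)).norm.natAbs = (z * z).norm.natAbs := by
      rw [← Int.natAbs_mul, ← Zsqrtd.norm_mul, hu]
    rw [h5, mul_one] at h6
    exact h6
  rw [h4, Zsqrtd.norm_mul, Int.natAbs_mul]
  unfold nrm
  ring

lemma toG {𝔠 : Ideal (𝓞 M)} {ψ : Ideal (𝓞 M) →*₀ ℂ} (h : IsPrimChar M 𝔠 ψ) :
    Pool.Agent.Y773.G.IsPrimChar M 𝔠 ψ :=
  ⟨h.ne_bot, h.supp, fun x _ hx hp => h.ray x hx hp, h.prim⟩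

/-- what is needed about the twisted character -/
structure TwD (Nm : Ideal (𝓞 M) →*₀ Ideal GaussianInt) (𝔣 : Ideal (𝓞 M)) (φ : Ideal (𝓞 M) →*₀ ℂ)
    (R : ℕ) (q : GaussianInt) (χ : GaussianInt →* ℂ) (𝔠 : Ideal (𝓞 M)) (ψ : Ideal (𝓞 M) →*₀ ℂ) :
    Prop where
  ne_top : 𝔠 ≠ ⊤
  prim : IsPrimChar M 𝔠 ψ
  dvd : 𝔠 ∣ 𝔣 * up M q
  val : ∀ 𝔞, IsCoprime 𝔞 (𝔣 * up M q) → ψ 𝔞 = φ 𝔞 * chI χ (Nm 𝔞)
  valR : ∀ 𝔞, IsCoprime 𝔞 (Ideal.span {(R : 𝓞 M)}) → ψ 𝔞 = φ 𝔞 * chI χ (Nm 𝔞)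
  big : ∀ d : GaussianInt, d ∣ q → IsCoprime d (R : GaussianInt) → up M d ∣ 𝔠

/-- the coefficients of the L-function at the integers prime to `R` -/
lemma cc_eq {Nm : Ideal (𝓞 M) →*₀ Ideal GaussianInt} {𝔣 : Ideal (𝓞 M)} {φ : Ideal (𝓞 M) →*₀ ℂ}
    {R : ℕ} {q : GaussianInt} {χ : GaussianInt →* ℂ} {𝔠 : Ideal (𝓞 M)} {ψ : Ideal (𝓞 M) →*₀ ℂ}
    (h : TwD Nm 𝔣 φ R q χ 𝔠 ψ) {m : ℕ} (hm : Nat.Coprime m R) :
    cc ψ m * (ArithmeticFunction.vonMangoldt m : ℂ) = SS Nm φ χ m := by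
  rw [Pool.Agent.Y772.DK.cc_mul]
  unfold SS
  refine finsum_mem_congr rfl fun 𝔞 h𝔞 => ?_
  rw [h.valR 𝔞]
  rw [Pool.Agent.Y772.TW.coprime_q]
  have h1 : Ideal.absNorm 𝔞 = m := h𝔞
  rw [h1]
  exact hm

/-- **Main theorem of the project** -/
theorem main (hlsm : St_LSM) (hmass : St_MASS) {σ : M ≃ₐ[ℚ] M}
    {Nm : Ideal (𝓞 M) →*₀ Ideal GaussianInt} (hrel : Rel σ Nm) (𝔣 : Ideal (𝓞 M)) (h𝔣 : 𝔣 ≠ ⊥)
    (φ : Ideal (𝓞 M) →*₀ ℂ) (hsel : W388.SelE (cS Nm φ)) (R : ℕ) (hR : R ≠ 0)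
    (c : (Σ q : ZI, MulChar (RQ q) ℂ) → Ideal (𝓞 M))
    (ψ : (Σ q : ZI, MulChar (RQ q) ℂ) → Ideal (𝓞 M) →*₀ ℂ)
    (htw : ∀ X Y : ℕ, 1 ≤ X → ∀ p ∈ sF R X Y, TwD Nm 𝔣 φ R p.1 (chiZ p.1 p.2) (c p) (ψ p)) :
    ∃ η κ X₀ : ℝ, 0 < η ∧ 1 ≤ κ ∧ 1 ≤ X₀ ∧ ∀ X Y : ℕ, X₀ ≤ X → κ * X ≤ Y →
      (Y : ℝ) ≤ (X : ℝ) ^ (1 + η) → 0 < WF R X Y ∧
      ∀ T : ℝ, (Real.log Y) ^ 2 ≤ T → T ≤ (Y : ℝ) ^ η → 1 ≤ T ∧
        (∀ p ∈ sF R X Y, (zset (LL M (ψ p)) T (2 * T)).Finite) ∧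
        0.6725 * ∑ p ∈ sF R X Y, wF p * (NN (LL M (ψ p)) T (2 * T) : ℝ) ≤
          ∑ p ∈ sF R X Y, wF p * (Ns (LL M (ψ p)) T (2 * T) : ℝ) ∧
        0.83625 * ∑ p ∈ sF R X Y, wF p * (NN (LL M (ψ p)) T (2 * T) : ℝ) ≤
          ∑ p ∈ sF R X Y, wF p * (Nd (LL M (ψ p)) T (2 * T) : ℝ) := by
  classical
  obtain ⟨γ, β, D, ε, θ, ε0, h0, hπ, hβ, hε0, hε01, hβ4, hD, hε, hθ0, hθ1, hR0, hc0, hconst⟩ :=
    consts4
  obtain ⟨A, hA, hgood⟩ := Pool.Agent.Y773.IQ.good M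
  have hfr : (Module.finrank ℚ M : ℝ) = 4 := by rw [hrel.deg]; norm_num
  rw [hfr] at hgood
  -- the norm of `𝔣`
  obtain ⟨F0, hF0d⟩ : ∃ x : ℝ, x = (Ideal.absNorm 𝔣 : ℝ) := ⟨_, rfl⟩
  have hF0 : 1 ≤ F0 := by
    rw [hF0d]
    have : Ideal.absNorm 𝔣 ≠ 0 := by rw [Ne, Ideal.absNorm_eq_zero_iff]; exact h𝔣
    exact_mod_cast Nat.one_le_iff_ne_zero.mpr this
  have hF0p : 0 < F0 := by linarith
  obtain ⟨P, κ, X1, hP, hκ, hX1, hls⟩ := lsD hlsm hmass hrel φ R hR D hD F0 ε0 hF0 hε0 hε01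
  obtain ⟨d, hd, C, hC, hcnd⟩ := cnd hmass R hR
  obtain ⟨η1, hη1⟩ : ∃ x : ℝ, x = min (min (ε0 / 2) ((1 - θ) / 2)) 1 := ⟨_, rfl⟩
  have hη1p : 0 < η1 := by
    rw [hη1]
    exact lt_min (lt_min (by linarith) (by linarith)) one_pos
  have hη1a : η1 ≤ ε0 / 2 := by
    rw [hη1]; exact (min_le_left _ _).trans (min_le_left _ _)
  have hη1b : η1 ≤ (1 - θ) / 2 := by
    rw [hη1]; exact (min_le_left _ _).trans (min_le_right _ _)
  have hη1c : η1 ≤ 1 := by rw [hη1]; exact min_le_right _ _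
  -- the index set
  obtain ⟨X2, hX2⟩ : ∃ x : ℝ, x = max X1 ((P * R : ℕ) : ℝ) := ⟨_, rfl⟩
  have hX2a : X1 ≤ X2 := by rw [hX2]; exact le_max_left _ _
  have hX2b : ((P * R : ℕ) : ℝ) ≤ X2 := by rw [hX2]; exact le_max_right _ _
  set J : Type := {j : ℕ × ℕ // X2 ≤ (j.1 : ℝ) ∧ κ * j.1 ≤ (j.2 : ℝ) ∧
    (j.2 : ℝ) ≤ (j.1 : ℝ) ^ (1 + η1)} with hJ
  have k1 : ∀ j : J, (1 : ℝ) ≤ (j.1.1 : ℝ) := fun j => hX1.trans (hX2a.trans j.2.1)
  have k1' : ∀ j : J, 1 ≤ j.1.1 := fun j => by exact_mod_cast k1 j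
  have k2 : ∀ j : J, X1 ≤ (j.1.1 : ℝ) := fun j => hX2a.trans j.2.1
  have k3 : ∀ j : J, (j.1.1 : ℝ) ≤ (j.1.2 : ℝ) := fun j =>
    (le_mul_of_one_le_left (by linarith [k1 j]) hκ).trans j.2.2.1
  have k4 : ∀ j : J, (1 : ℝ) ≤ (j.1.2 : ℝ) := fun j => (k1 j).trans (k3 j)
  have k5 : ∀ j : J, (j.1.2 : ℝ) ≤ (j.1.1 : ℝ) ^ (1 + ε0 / 2) := fun j =>
    j.2.2.2.trans (Real.rpow_le_rpow_of_exponent_le (k1 j) (by linarith))
  have k6 : ∀ j : J, ((P * R : ℕ) : ℝ) ≤ (j.1.2 : ℝ) := fun j => (hX2b.trans j.2.1).trans (k3 j)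
  have hls' := fun j : J => hls j.1.1 j.1.2 (k1' j) (k2 j) j.2.2.1 (k5 j)
  -- the size
  obtain ⟨XX, hXX⟩ : ∃ XX : J → ℝ, ∀ j, XX j = (F0 * (j.1.2 : ℝ) ^ 2) ^ (1 / 4 : ℝ) :=
    ⟨_, fun _ => rfl⟩
  have hb1 : ∀ j : J, 1 ≤ F0 * (j.1.2 : ℝ) ^ 2 := fun j => by
    have := one_le_pow₀ (k4 j) (n := 2)
    nlinarith
  have hXX1 : ∀ j, 1 ≤ XX j := fun j => by
    rw [hXX]; exact Real.one_le_rpow (hb1 j) (by norm_num)
  have hXX4 : ∀ j (a : ℝ), XX j ^ (4 * a) = (F0 * (j.1.2 : ℝ) ^ 2) ^ a := fun j a => by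
    rw [hXX, ← Real.rpow_mul (by linarith [hb1 j])]
    congr 1
    ring
  have hlogXX : ∀ j, Real.log (XX j) = 1 / 4 * Real.log F0 + 1 / 2 * Real.log (j.1.2 : ℝ) := by
    intro j
    have := k4 j
    rw [hXX, Real.log_rpow (by linarith [hb1 j]), Real.log_mul (by linarith) (by positivity),
      Real.log_pow]
    push_cast
    ring
  -- the twisted characters
  have htw' : ∀ j : J, ∀ p ∈ sF R j.1.1 j.1.2, TwD Nm 𝔣 φ R p.1 (chiZ p.1 p.2) (c p) (ψ p) :=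
    fun j p hp => htw _ _ (k1' j) p hp
  have hfs : ∀ j : J, ∀ p ∈ sF R j.1.1 j.1.2, p.1 ≠ 0 ∧ j.1.1 < nrm p.1 ∧ nrm p.1 ≤ j.1.2 := by
    intro j p hp
    have h5 := (Pool.Agent.H82R3.AR.fs_mem _ _ p).1 (Finset.mem_filter.1 hp).1
    exact ⟨h5.1, h5.2.1, h5.2.2.1⟩
  have hGd : ∀ j : J, ∀ p ∈ sF R j.1.1 j.1.2, W388.LV.GoodG 4 A
      ((Ideal.absNorm (c p) : ℝ) ^ (1 / 4 : ℝ)) (LL M (ψ p))
      (fun m => cc (ψ p) m * (ArithmeticFunction.vonMangoldt m : ℂ)) := by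
    intro j p hp
    obtain ⟨F, hF, hFL, hG⟩ := hgood _ _ (htw' j p hp).ne_top (toG (htw' j p hp).prim)
    rw [LL_eq M hF hFL]
    exact hG
  -- norms of the conductors
  have hcn : ∀ j : J, ∀ p ∈ sF R j.1.1 j.1.2, (1 : ℝ) ≤ (Ideal.absNorm (c p) : ℝ) ∧
      (Ideal.absNorm (c p) : ℝ) ≤ F0 * (j.1.2 : ℝ) ^ 2 ∧
      (nrm (d p.1) : ℝ) ^ 2 ≤ (Ideal.absNorm (c p) : ℝ) := by
    intro j p hp
    have ht := htw' j p hp
    obtain ⟨q1, q2, q3⟩ := hfs j p hp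
    obtain ⟨d1, d2, d3⟩ := hd p.1 q1
    have hc0 : Ideal.absNorm (c p) ≠ 0 := by
      rw [Ne, Ideal.absNorm_eq_zero_iff]; exact ht.prim.ne_bot
    have hfq : Ideal.absNorm (𝔣 * up M p.1) ≠ 0 := by
      rw [map_mul, absNorm_up hrel]
      refine mul_ne_zero ?_ ?_
      · rw [Ne, Ideal.absNorm_eq_zero_iff]; exact h𝔣
      · exact pow_ne_zero 2 (Nat.one_le_iff_ne_zero.mp (H385.H10.nrm_pos q1))
    refine ⟨by exact_mod_cast Nat.one_le_iff_ne_zero.mpr hc0, ?_, ?_⟩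
    · have h1 : Ideal.absNorm (c p) ≤ Ideal.absNorm (𝔣 * up M p.1) :=
        Nat.le_of_dvd (Nat.pos_of_ne_zero hfq)
          (Ideal.absNorm_dvd_absNorm_of_le (Ideal.dvd_iff_le.mp ht.dvd))
      have h2 : (Ideal.absNorm (𝔣 * up M p.1) : ℝ) = F0 * (nrm p.1 : ℝ) ^ 2 := by
        rw [map_mul, absNorm_up hrel, hF0d]
        push_cast
        ring
      have h3 : (nrm p.1 : ℝ) ≤ (j.1.2 : ℝ) := by exact_mod_cast q3
      calc (Ideal.absNorm (c p) : ℝ) ≤ (Ideal.absNorm (𝔣 * up M p.1) : ℝ) := by exact_mod_cast h1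
        _ = F0 * (nrm p.1 : ℝ) ^ 2 := h2
        _ ≤ _ := mul_le_mul_of_nonneg_left (pow_le_pow_left₀ (Nat.cast_nonneg _) h3 2) hF0p.le
    · have h1 : Ideal.absNorm (up M (d p.1)) ≤ Ideal.absNorm (c p) :=
        Nat.le_of_dvd (Nat.pos_of_ne_zero hc0)
          (Ideal.absNorm_dvd_absNorm_of_le (Ideal.dvd_iff_le.mp (ht.big _ d2 d3)))
      rw [absNorm_up hrel] at h1
      exact_mod_cast h1
  -- the mean square
  have hmsq := msqW (cS Nm φ) hsel 4 D (by norm_num) hD.le J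
    (fun _ => Σ q : ZI, MulChar (RQ q) ℂ) (fun j => sF R j.1.1 j.1.2)
    (fun j p => (WF R j.1.1 j.1.2)⁻¹ * wF p) XX (P * R)
    (fun _ p m => cc (ψ p) m * (ArithmeticFunction.vonMangoldt m : ℂ))
    (Nat.mul_pos hP (Nat.pos_of_ne_zero hR)) (by
      intro j
      have hW := (hls' j).1
      refine ⟨fun p _ => mul_nonneg (inv_nonneg.mpr hW.le) (wF_nn p), ?_⟩
      rw [← Finset.mul_sum]
      exact inv_mul_cancel₀ hW.ne') (by
      intro j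
      refine ⟨hXX1 j, ?_⟩
      have e := hXX4 j 1
      rw [mul_one, Real.rpow_one] at e
      rw [e]
      refine (k6 j).trans ?_
      have := k4 j
      nlinarith [mul_le_mul_of_nonneg_right hF0 (show (0 : ℝ) ≤ (j.1.2 : ℝ) ^ 2 by positivity)]) (by
      intro j p hp m
      have h8 := Pool.Agent.Y772.DK.norm_cc_le (ψ p)
        ((toG (htw' j p hp).prim).norm_le_one Pool.Agent.Y772.G.t_sig) m
      rw [norm_mul, Complex.norm_real,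
        Real.norm_of_nonneg ArithmeticFunction.vonMangoldt_nonneg]
      rw [hfr] at h8
      exact mul_le_mul_of_nonneg_right h8 ArithmeticFunction.vonMangoldt_nonneg)
    γ β ε0 h0 hπ hβ hε0 hε01 hβ4 ⟨1, fun j _ N hN b => by
      rw [hXX4] at hN
      obtain ⟨hW, -, -, hl⟩ := hls' j
      have h9 := hl N hN (fun m => if Nat.Coprime m R then b m else 0)
      have e1 : ∀ p ∈ sF R j.1.1 j.1.2, ∑ m ∈ Finset.Icc 1 N, b m *
          (if Nat.Coprime m (P * R) then cc (ψ p) m * (ArithmeticFunction.vonMangoldt m : ℂ) else 0) =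
          ∑ m ∈ Finset.Icc 1 N, (if Nat.Coprime m R then b m else 0) *
            (if Nat.Coprime m P then SS Nm φ (chiZ p.1 p.2) m else 0) := by
        intro p hp
        refine Finset.sum_congr rfl fun m _ => ?_
        by_cases a1 : Nat.Coprime m P
        · by_cases a2 : Nat.Coprime m R
          · rw [if_pos (Nat.Coprime.mul_right a1 a2), if_pos a2, if_pos a1, cc_eq (htw' j p hp) a2]
          · rw [if_neg (fun h => a2 (Nat.Coprime.coprime_mul_left_right h)), if_neg a2]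
            ring
        · rw [if_neg (fun h => a1 (Nat.Coprime.coprime_mul_right_right h)), if_neg a1]
          ring
      have e2 : ∑ p ∈ sF R j.1.1 j.1.2, (WF R j.1.1 j.1.2)⁻¹ * wF p *
          ‖∑ m ∈ Finset.Icc 1 N, b m * (if Nat.Coprime m (P * R) then
            cc (ψ p) m * (ArithmeticFunction.vonMangoldt m : ℂ) else 0)‖ ^ 2 =
          (WF R j.1.1 j.1.2)⁻¹ * ∑ p ∈ sF R j.1.1 j.1.2, wF p *
          ‖∑ m ∈ Finset.Icc 1 N, (if Nat.Coprime m R then b m else 0) *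
            (if Nat.Coprime m P then SS Nm φ (chiZ p.1 p.2) m else 0)‖ ^ 2 := by
        rw [Finset.mul_sum]
        refine Finset.sum_congr rfl fun p hp => ?_
        rw [e1 p hp, mul_assoc]
      rw [e2, inv_mul_le_iff₀ hW]
      refine h9.trans ?_
      have e3 : ∑ m ∈ Finset.Icc 1 N, ‖(if Nat.Coprime m R then b m else 0 : ℂ)‖ ^ 2 *
          (ArithmeticFunction.vonMangoldt m * ‖cS Nm φ m‖) ^ 2 ≤ ∑ m ∈ Finset.Icc 1 N, ‖b m‖ ^ 2 *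
          (ArithmeticFunction.vonMangoldt m * ‖cS Nm φ m‖) ^ 2 := by
        refine Finset.sum_le_sum fun m _ => mul_le_mul_of_nonneg_right ?_ (sq_nonneg _)
        split_ifs
        · exact le_rfl
        · rw [norm_zero]
          exact (by norm_num : (0 : ℝ) ^ 2 ≤ 0).trans (sq_nonneg _)
      calc D * WF R j.1.1 j.1.2 * _ ≤ D * WF R j.1.1 j.1.2 * _ :=
            mul_le_mul_of_nonneg_left e3 (mul_nonneg (by linarith) hW.le)
        _ = _ := by ring⟩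
  -- the average of the conductors
  have hcond : ∃ X0 : ℝ, ∀ j : J, X0 ≤ XX j →
      ∑ p ∈ sF R j.1.1 j.1.2, (WF R j.1.1 j.1.2)⁻¹ * wF p *
        (Real.log (XX j) - Real.log ((Ideal.absNorm (c p) : ℝ) ^ (1 / 4 : ℝ))) ≤
        (1 - θ) * Real.log (XX j) *
          ∑ p ∈ sF R j.1.1 j.1.2, (WF R j.1.1 j.1.2)⁻¹ * wF p := by
    obtain ⟨B, hB⟩ : ∃ x : ℝ, x = 1 / 4 * Real.log F0 + C * κ := ⟨_, rfl⟩
    have hlF : 0 ≤ Real.log F0 := Real.log_nonneg hF0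
    have hB0 : 0 ≤ B := by rw [hB]; positivity
    refine ⟨Real.exp (2 * B / (1 - θ)), fun j hj => ?_⟩
    obtain ⟨hW, hW2, hW3, -⟩ := hls' j
    have hL : 2 * B / (1 - θ) ≤ Real.log (XX j) := by
      rw [Real.le_log_iff_exp_le (by linarith [hXX1 j])]
      exact hj
    have hL' : B ≤ (1 - θ) / 2 * Real.log (XX j) := by
      rw [div_le_iff₀ (by linarith)] at hL
      linarith
    have hsum1 : ∑ p ∈ sF R j.1.1 j.1.2, (WF R j.1.1 j.1.2)⁻¹ * wF p = 1 := by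
      rw [← Finset.mul_sum]
      exact inv_mul_cancel₀ hW.ne'
    rw [hsum1, mul_one]
    have hlY : Real.log (j.1.2 : ℝ) ≤ 2 * Real.log (XX j) := by
      rw [hlogXX]
      linarith
    have hlX0 : 0 ≤ Real.log (j.1.1 : ℝ) := Real.log_nonneg (k1 j)
    have hlYX : Real.log (j.1.2 : ℝ) ≤ (1 + η1) * Real.log (j.1.1 : ℝ) := by
      have := Real.log_le_log (by linarith [k4 j]) j.2.2.2
      rwa [Real.log_rpow (by linarith [k1 j])] at this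
    have hlXY : Real.log (j.1.1 : ℝ) ≤ Real.log (j.1.2 : ℝ) :=
      Real.log_le_log (by linarith [k1 j]) (k3 j)
    have hterm : ∀ p ∈ sF R j.1.1 j.1.2, (WF R j.1.1 j.1.2)⁻¹ * wF p *
        (Real.log (XX j) - Real.log ((Ideal.absNorm (c p) : ℝ) ^ (1 / 4 : ℝ))) ≤
        (1 / 4 * Real.log F0 + 1 / 2 * (η1 * Real.log (j.1.1 : ℝ))) *
          ((WF R j.1.1 j.1.2)⁻¹ * wF p) + 1 / 2 * ((WF R j.1.1 j.1.2)⁻¹ *
          (wF p * (Real.log (nrm p.1 : ℝ) - Real.log (nrm (d p.1) : ℝ)))) := by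
      intro p hp
      obtain ⟨n1, n2, n3⟩ := hcn j p hp
      obtain ⟨q1, q2, q3⟩ := hfs j p hp
      obtain ⟨d1, d2, d3⟩ := hd p.1 q1
      have hdp : (0 : ℝ) < nrm (d p.1) := by exact_mod_cast H385.H10.nrm_pos d1
      have e1 : 2 * Real.log (nrm (d p.1) : ℝ) ≤ Real.log (Ideal.absNorm (c p) : ℝ) := by
        have := Real.log_le_log (by positivity) n3
        rwa [Real.log_pow] at this
      have e2 : Real.log ((Ideal.absNorm (c p) : ℝ) ^ (1 / 4 : ℝ)) =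
          1 / 4 * Real.log (Ideal.absNorm (c p) : ℝ) := Real.log_rpow (by linarith) _
      have e3 : Real.log (j.1.1 : ℝ) ≤ Real.log (nrm p.1 : ℝ) := by
        refine Real.log_le_log (by linarith [k1 j]) ?_
        exact_mod_cast q2.le
      have hw : 0 ≤ (WF R j.1.1 j.1.2)⁻¹ * wF p := mul_nonneg (inv_nonneg.mpr hW.le) (wF_nn p)
      have e4 : Real.log (XX j) - Real.log ((Ideal.absNorm (c p) : ℝ) ^ (1 / 4 : ℝ)) ≤
          (1 / 4 * Real.log F0 + 1 / 2 * (η1 * Real.log (j.1.1 : ℝ))) +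
          1 / 2 * (Real.log (nrm p.1 : ℝ) - Real.log (nrm (d p.1) : ℝ)) := by
        rw [e2, hlogXX]
        linarith
      have e5 := mul_le_mul_of_nonneg_left e4 hw
      refine e5.trans (le_of_eq ?_)
      ring
    refine (Finset.sum_le_sum hterm).trans ?_
    rw [Finset.sum_add_distrib, ← Finset.mul_sum, hsum1, mul_one, ← Finset.mul_sum,
      ← Finset.mul_sum]
    have hXY' : j.1.1 ≤ j.1.2 := by exact_mod_cast k3 j
    have h6 := hcnd j.1.1 j.1.2 (k1' j) hXY'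
    have h7 : (WF R j.1.1 j.1.2)⁻¹ * ∑ p ∈ sF R j.1.1 j.1.2,
        (wF p * (Real.log (nrm p.1 : ℝ) - Real.log (nrm (d p.1) : ℝ))) ≤ 2 * (C * κ) := by
      rw [inv_mul_le_iff₀ hW]
      refine h6.trans ?_
      have a1 := mul_le_mul_of_nonneg_left hW3 hC.le
      have a2 := mul_le_mul_of_nonneg_left hW2 (show 0 ≤ C * κ by positivity)
      linarith
    have h8 : η1 * Real.log (j.1.1 : ℝ) ≤ (1 - θ) / 2 * (2 * Real.log (XX j)) := by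
      have a1 := mul_le_mul_of_nonneg_right hη1b hlX0
      have a2 := mul_le_mul_of_nonneg_left (hlXY.trans hlY) (show 0 ≤ (1 - θ) / 2 by linarith)
      linarith
    linarith
  obtain ⟨η, X0, hη, hX0, hres⟩ := Pool.Agent.Y773.IQ.coreV_aux 4 A (by norm_num) hA J
    (fun _ => Σ q : ZI, MulChar (RQ q) ℂ) (fun j => sF R j.1.1 j.1.2)
    (fun j p => (WF R j.1.1 j.1.2)⁻¹ * wF p) XX
    (fun _ p => (Ideal.absNorm (c p) : ℝ) ^ (1 / 4 : ℝ)) (fun _ p => LL M (ψ p))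
    (fun _ p m => cc (ψ p) m * (ArithmeticFunction.vonMangoldt m : ℂ)) hXX1 (by
      intro j p hp
      have hW := (hls' j).1
      obtain ⟨n1, n2, n3⟩ := hcn j p hp
      refine ⟨mul_nonneg (inv_nonneg.mpr hW.le) (wF_nn p), Real.one_le_rpow n1 (by norm_num), ?_,
        hGd j p hp⟩
      rw [hXX]
      exact Real.rpow_le_rpow (by linarith) n2 (by norm_num)) θ hθ0 hθ1.le hcond
    γ β _ h0 hπ hβ hc0 hR0 hmsq ε hε
  -- conclusion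
  obtain ⟨η2, hη2⟩ : ∃ x : ℝ, x = min η1 (η / 2) := ⟨_, rfl⟩
  have hη2p : 0 < η2 := by rw [hη2]; exact lt_min hη1p (by linarith)
  have hη2a : η2 ≤ η1 := by rw [hη2]; exact min_le_left _ _
  have hη2b : η2 ≤ η / 2 := by rw [hη2]; exact min_le_right _ _
  obtain ⟨X3, hX3⟩ : ∃ x : ℝ, x = max (max X2 (X0 ^ (2 : ℝ))) (max (F0 ^ (1 / 2 : ℝ)) 3) :=
    ⟨_, rfl⟩
  refine ⟨η2, κ, X3, hη2p, hκ, ?_, fun X Y hX hY hYX => ?_⟩
  · rw [hX3]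
    exact le_max_of_le_right (le_max_of_le_right (by norm_num))
  rw [hX3] at hX
  have hXX2 : X2 ≤ (X : ℝ) := ((le_max_left _ _).trans (le_max_left _ _)).trans hX
  have hXX0 : X0 ^ (2 : ℝ) ≤ (X : ℝ) := ((le_max_right _ _).trans (le_max_left _ _)).trans hX
  have hXF : F0 ^ (1 / 2 : ℝ) ≤ (X : ℝ) :=
    ((le_max_left _ _).trans (le_max_right _ _)).trans hX
  have hX3' : (3 : ℝ) ≤ (X : ℝ) := ((le_max_right _ _).trans (le_max_right _ _)).trans hX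
  have hXr1 : (1 : ℝ) ≤ (X : ℝ) := by linarith
  set j : J := ⟨(X, Y), hXX2, hY, hYX.trans
    (Real.rpow_le_rpow_of_exponent_le hXr1 (by linarith))⟩ with hj
  have hXY : (X : ℝ) ≤ (Y : ℝ) := k3 j
  have hYp : (0 : ℝ) < (Y : ℝ) := by linarith
  have hW : 0 < WF R X Y := (hls' j).1
  refine ⟨hW, fun T hT1 hT2 => ?_⟩
  have hlog1 : 1 ≤ Real.log (Y : ℝ) := by
    rw [Real.le_log_iff_exp_le hYp]
    exact (Real.exp_one_lt_d9.le.trans (by norm_num)).trans (hX3'.trans hXY)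
  have hT0 : 1 ≤ T := by nlinarith
  have hsq : (XX j) ^ (2 : ℝ) = F0 ^ (1 / 2 : ℝ) * (Y : ℝ) := by
    rw [hXX, ← Real.rpow_mul (by linarith [hb1 j]), Real.mul_rpow hF0p.le (by positivity)]
    have e1 : (1 / 4 * 2 : ℝ) = 1 / 2 := by norm_num
    rw [e1, ← Real.sqrt_eq_rpow ((j.1.2 : ℝ) ^ 2), Real.sqrt_sq hYp.le]
  have hF12 : 1 ≤ F0 ^ (1 / 2 : ℝ) := Real.one_le_rpow hF0 (by norm_num)
  have hYXX : (Y : ℝ) ≤ (XX j) ^ (2 : ℝ) := by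
    rw [hsq]
    exact le_mul_of_one_le_left hYp.le hF12
  have hXXp : (0 : ℝ) < XX j := by linarith [hXX1 j]
  have hX0j : X0 ≤ XX j := by
    have h1 : X0 ^ (2 : ℝ) ≤ (XX j) ^ (2 : ℝ) := hXX0.trans (hXY.trans hYXX)
    exact (Real.rpow_le_rpow_iff (by linarith) hXXp.le (by norm_num)).mp h1
  have hlXX : Real.log (XX j) ≤ Real.log (Y : ℝ) := by
    have h1 : (XX j) ^ (2 : ℝ) ≤ (Y : ℝ) ^ (2 : ℝ) := by
      rw [hsq, Real.rpow_two, sq]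
      exact mul_le_mul_of_nonneg_right (hXF.trans hXY) hYp.le
    have h2 : XX j ≤ (Y : ℝ) := (Real.rpow_le_rpow_iff hXXp.le hYp.le (by norm_num)).mp h1
    exact Real.log_le_log hXXp h2
  have hlXX0 : 0 ≤ Real.log (XX j) := Real.log_nonneg (hXX1 j)
  have hL2 : (Real.log (XX j)) ^ 2 ≤ T := (pow_le_pow_left₀ hlXX0 hlXX 2).trans hT1
  have hTη : T ≤ (XX j) ^ η := by
    refine hT2.trans ?_
    calc (Y : ℝ) ^ η2 ≤ (Y : ℝ) ^ (η / 2) :=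
          Real.rpow_le_rpow_of_exponent_le (by linarith) hη2b
      _ ≤ ((XX j) ^ (2 : ℝ)) ^ (η / 2) := Real.rpow_le_rpow hYp.le hYXX (by linarith)
      _ = (XX j) ^ η := by
          rw [← Real.rpow_mul hXXp.le]
          congr 1; ring
  obtain ⟨r1, r2⟩ := hres j T hX0j hL2 hTη
  have hnorm : ∀ f : (Σ q : ZI, MulChar (RQ q) ℂ) → ℝ, ∑ p ∈ sF R X Y, (WF R X Y)⁻¹ * wF p * f p =
      (WF R X Y)⁻¹ * ∑ p ∈ sF R X Y, wF p * f p := by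
    intro f
    rw [Finset.mul_sum]
    refine Finset.sum_congr rfl fun p _ => ?_
    ring
  obtain ⟨κ0, hκ0⟩ : ∃ x : ℝ, x = (4 * Rw γ 0 / β +
    2 * β * (∫ α in (0 : ℝ)..1, α * Rw γ α) * D / 4 + ε) * θ⁻¹ := ⟨_, rfl⟩
  have hκ : κ0 ≤ 1.3275 := by rw [hκ0]; exact hconst
  have hSN : 0 ≤ ∑ p ∈ sF R X Y, wF p * (NN (LL M (ψ p)) T (2 * T) : ℝ) :=
    Finset.sum_nonneg fun p _ => mul_nonneg (wF_nn p) (Nat.cast_nonneg _)
  have hred : ∀ (A B : ℝ), (WF R X Y)⁻¹ * A ≤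
      (4 * Rw γ 0 / β + 2 * β * (∫ α in (0 : ℝ)..1, α * Rw γ α) * D / 4 + ε) *
        (θ⁻¹ * ((WF R X Y)⁻¹ * B)) → A ≤ κ0 * B := by
    intro A B h
    have h' : (WF R X Y)⁻¹ * A ≤ (WF R X Y)⁻¹ * (κ0 * B) := by
      refine h.trans (le_of_eq ?_)
      rw [hκ0]
      ring
    exact le_of_mul_le_mul_left h' (inv_pos.mpr hW)
  have r1' := hred _ _ (by
    have e := r1
    rw [show (∑ p ∈ sF R j.1.1 j.1.2, (WF R j.1.1 j.1.2)⁻¹ * wF p *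
      (2 * (NN (LL M (ψ p)) T (2 * T) : ℝ) - (Ns (LL M (ψ p)) T (2 * T) : ℝ))) = _ from
        hnorm (fun p => 2 * (NN (LL M (ψ p)) T (2 * T) : ℝ) - (Ns (LL M (ψ p)) T (2 * T) : ℝ)),
      show (∑ p ∈ sF R j.1.1 j.1.2, (WF R j.1.1 j.1.2)⁻¹ * wF p *
      (NN (LL M (ψ p)) T (2 * T) : ℝ)) = _ from
        hnorm (fun p => (NN (LL M (ψ p)) T (2 * T) : ℝ))] at e
    exact e)
  have r2' := hred _ _ (by
    have e := r2
    rw [show (∑ p ∈ sF R j.1.1 j.1.2, (WF R j.1.1 j.1.2)⁻¹ * wF p *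
      (3 * (NN (LL M (ψ p)) T (2 * T) : ℝ) - 2 * (Nd (LL M (ψ p)) T (2 * T) : ℝ))) = _ from
        hnorm (fun p => 3 * (NN (LL M (ψ p)) T (2 * T) : ℝ) - 2 * (Nd (LL M (ψ p)) T (2 * T) : ℝ)),
      show (∑ p ∈ sF R j.1.1 j.1.2, (WF R j.1.1 j.1.2)⁻¹ * wF p *
      (NN (LL M (ψ p)) T (2 * T) : ℝ)) = _ from
        hnorm (fun p => (NN (LL M (ψ p)) T (2 * T) : ℝ))] at e
    exact e)
  have r3 := mul_le_mul_of_nonneg_right hκ hSN
  have s1 : ∑ p ∈ sF R X Y, wF p *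
      (2 * (NN (LL M (ψ p)) T (2 * T) : ℝ) - (Ns (LL M (ψ p)) T (2 * T) : ℝ)) =
      2 * ∑ p ∈ sF R X Y, wF p * (NN (LL M (ψ p)) T (2 * T) : ℝ) -
        ∑ p ∈ sF R X Y, wF p * (Ns (LL M (ψ p)) T (2 * T) : ℝ) := by
    rw [Finset.mul_sum, ← Finset.sum_sub_distrib]
    refine Finset.sum_congr rfl fun p _ => ?_
    ring
  have s2 : ∑ p ∈ sF R X Y, wF p *
      (3 * (NN (LL M (ψ p)) T (2 * T) : ℝ) - 2 * (Nd (LL M (ψ p)) T (2 * T) : ℝ)) =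
      3 * ∑ p ∈ sF R X Y, wF p * (NN (LL M (ψ p)) T (2 * T) : ℝ) -
        2 * ∑ p ∈ sF R X Y, wF p * (Nd (LL M (ψ p)) T (2 * T) : ℝ) := by
    rw [Finset.mul_sum, Finset.mul_sum, ← Finset.sum_sub_distrib]
    refine Finset.sum_congr rfl fun p _ => ?_
    ring
  rw [s1] at r1'
  rw [s2] at r2'
  refine ⟨hT0, fun p hp => ?_, by linarith, by linarith⟩
  obtain ⟨n1, -, -⟩ := hcn j p hp
  exact W388.LV.zset_finite_D hA (Real.one_le_rpow n1 (by norm_num)) (hGd j p hp) T (2 * T) hT0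

end

end Pool.Agent.Y773.D4
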