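import Pool.Agent.W388.LV.LocalE

/-!
# Ordinates which occur exactly once
-/

set_option autoImplicit false
set_option maxHeartbeats 4000000

open Complex Filter Topology Set MeasureTheory

namespace Pool.Agent.Y773.D4

open H385 W388
open H370 (zset mult NN Nd Ns)

/-- the number of the ordinates which occur exactly once -/
noncomputable def Nu (F : ℂ → ℂ) (T1 T2 : ℝ) : ℕ :=
  {s : ℂ | s ∈ zset F T1 T2 ∧ mult F s = 1 ∧ ∀ s' ∈ zset F T1 T2, s'.im = s.im → s' = s}.ncard

theorem nu_lower {d A Q : ℝ} (hA : 1 ≤ A) (hQ : 1 ≤ Q) {F : ℂ → ℂ} {a : ℕ → ℂ}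
    (hF : W388.LV.GoodG d A Q F a) (T1 T2 : ℝ) (h : 1 ≤ T1) :
    3 * (Ns F T1 T2 : ℝ) ≤ NN F T1 T2 + 2 * Nu F T1 T2 := by
  classical
  have hfin := W388.LV.zset_finite_D hA hQ hF T1 T2 h
  set Z := hfin.toFinset with hZ
  have memZ : ∀ s : ℂ, s ∈ Z ↔ s ∈ zset F T1 T2 := fun s => by rw [hZ, Set.Finite.mem_toFinset]
  set S := Z.filter (fun s => s.re = 1 / 2 ∧ mult F s = 1) with hS
  set U := Z.filter (fun s => mult F s = 1 ∧ ∀ s' ∈ zset F T1 T2, s'.im = s.im → s' = s) with hU
  set P := Z.filter (fun s => 1 / 2 < s.re) with hP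
  set M := Z.filter (fun s => s.re < 1 / 2) with hM
  have eS : Ns F T1 T2 = S.card := by
    unfold H370.Ns
    rw [← Set.ncard_coe_finset]
    congr 1
    ext s
    simp only [hS, Finset.coe_filter, Set.mem_ofPred_eq, memZ]
  have eU : Nu F T1 T2 = U.card := by
    unfold Nu
    rw [← Set.ncard_coe_finset]
    congr 1
    ext s
    simp only [hU, Finset.coe_filter, Set.mem_ofPred_eq, memZ]
  have eN : NN F T1 T2 = ∑ s ∈ Z, mult F s := by
    unfold H370.NN
    exact finsum_mem_eq_finite_toFinset_sum _ hfin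
  have hm : ∀ s ∈ Z, 1 ≤ mult F s := by
    intro s hs
    have h1 := (memZ s).1 hs
    exact W388.LV.LocD.mult_pos_D hA hF (by linarith [h1.2.2.1]) h1.2.2.2.2
  -- mirror images
  have hmir : ∀ s ∈ Z, 1 - (starRingEnd ℂ) s ∈ Z := by
    intro s hs
    obtain ⟨h1, h2, h3, h4, h5⟩ := (memZ s).1 hs
    rw [memZ]
    have hs0 : 0 < s.im := by linarith
    have hc : 0 < (1 - (starRingEnd ℂ) s).im := by simp; linarith
    refine ⟨by simp; linarith, by simp; linarith, by simp; linarith, by simp; linarith, ?_⟩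
    have g1 := hF.symm s h1 h2 (by linarith)
    by_contra h6
    have g2 : analyticOrderAt F (1 - (starRingEnd ℂ) s) = 0 :=
      (hF.an _ hc).analyticOrderAt_eq_zero.mpr h6
    rw [g2] at g1
    exact ((hF.an s hs0).analyticOrderAt_eq_zero.mp g1.symm) h5
  set B := S \ U with hB
  have hBP : B.card ≤ P.card := by
    have h1 : (B.image Complex.im).card = B.card := by
      refine Finset.card_image_of_injOn ?_
      intro s hs t ht hst
      simp only [hB, hS, Finset.coe_sdiff, Set.mem_sdiff, Finset.mem_coe, Finset.mem_filter] at hs ht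
      exact Complex.ext (hs.1.2.1.trans ht.1.2.1.symm) hst
    rw [← h1]
    refine le_trans (Finset.card_le_card (t := P.image Complex.im) ?_) Finset.card_image_le
    intro y hy
    obtain ⟨s, hs, rfl⟩ := Finset.mem_image.mp hy
    rw [hB, Finset.mem_sdiff, hS, hU, Finset.mem_filter, Finset.mem_filter] at hs
    obtain ⟨⟨hsZ, hre, hms⟩, hnu⟩ := hs
    have : ∃ s' ∈ zset F T1 T2, s'.im = s.im ∧ s' ≠ s := by
      by_contra hcon
      push Not at hcon
      exact hnu ⟨hsZ, hms, hcon⟩
    obtain ⟨s', hs', him, hne⟩ := this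
    have hs'Z := (memZ s').2 hs'
    have hre' : s'.re ≠ 1 / 2 := fun h => hne (Complex.ext (h.trans hre.symm) him)
    rcases lt_or_gt_of_ne hre' with h2 | h2
    · refine Finset.mem_image.mpr ⟨1 - (starRingEnd ℂ) s', ?_, by simp [him]⟩
      rw [hP, Finset.mem_filter]
      exact ⟨hmir _ hs'Z, by simp; linarith⟩
    · refine Finset.mem_image.mpr ⟨s', ?_, him⟩
      rw [hP, Finset.mem_filter]
      exact ⟨hs'Z, h2⟩
  have hPM : P.card ≤ M.card := by
    refine Finset.card_le_card_of_injOn (fun s => 1 - (starRingEnd ℂ) s) ?_ ?_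
    · intro s hs
      simp only [hP, Finset.coe_filter, Set.mem_ofPred_eq] at hs
      simp only [hM, Finset.coe_filter, Set.mem_ofPred_eq]
      exact ⟨hmir _ hs.1, by simp; linarith [hs.2]⟩
    · intro s _ t _ hst
      have h1 : (starRingEnd ℂ) s = (starRingEnd ℂ) t := by
        have : (1 : ℂ) - (starRingEnd ℂ) s = 1 - (starRingEnd ℂ) t := hst
        linear_combination -this
      exact (starRingEnd ℂ).injective h1
  have hsum : S.card + P.card + M.card ≤ NN F T1 T2 := by
    rw [eN]
    have d1 : Disjoint S P := by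
      rw [Finset.disjoint_left]
      intro s h1 h2
      simp only [hS, hP, Finset.mem_filter] at h1 h2
      linarith [h1.2.1, h2.2]
    have d2 : Disjoint (S ∪ P) M := by
      rw [Finset.disjoint_left]
      intro s h1 h2
      simp only [hS, hP, hM, Finset.mem_union, Finset.mem_filter] at h1 h2
      rcases h1 with h1 | h1
      · linarith [h1.2.1, h2.2]
      · linarith [h1.2, h2.2]
    rw [← Finset.card_union_of_disjoint d1, ← Finset.card_union_of_disjoint d2]
    calc (S ∪ P ∪ M).card = ∑ s ∈ S ∪ P ∪ M, 1 := by simp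
      _ ≤ ∑ s ∈ S ∪ P ∪ M, mult F s := by
          refine Finset.sum_le_sum fun s hs => hm s ?_
          simp only [hS, hP, hM, Finset.mem_union, Finset.mem_filter] at hs
          tauto
      _ ≤ ∑ s ∈ Z, mult F s := by
          refine Finset.sum_le_sum_of_subset ?_
          intro s hs
          simp only [hS, hP, hM, Finset.mem_union, Finset.mem_filter] at hs
          tauto
  have hSU : S.card ≤ U.card + B.card := by
    have : S ⊆ U ∪ B := by
      intro s hs
      by_cases h1 : s ∈ U
      · exact Finset.mem_union_left _ h1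
      · exact Finset.mem_union_right _ (Finset.mem_sdiff.mpr ⟨hs, h1⟩)
    exact (Finset.card_le_card this).trans (Finset.card_union_le _ _)
  rw [eS, eU]
  have : 3 * S.card ≤ NN F T1 T2 + 2 * U.card := by omega
  exact_mod_cast this

end Pool.Agent.Y773.D4
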