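import Pool.Agent.Y773.D4.Asm
import Pool.Agent.Y773.D4.Once

/-! # Complements: ordinates which occur once, irreducibility -/

set_option autoImplicit false

open NumberField Filter Topology MeasureTheory

namespace Pool.Agent.Y773.D4

open Pool.Agent.Y773 (VM cc)
open Pool.Agent.Y773.IQ (LL LL_eq)
open Pool.Agent.H82R3.AR (FS PFs Wm)
open H385 (ZI RQ chiZ PrimC nrm BX wF im1 Rw)
open H370 (zset NN Ns Nd)

section

variable {M : Type} [Field M] [NumberField M] [Algebra GaussianInt (𝓞 M)]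

/-- ordinates which occur exactly once, in the family -/
theorem once_fam {Nm : Ideal (𝓞 M) →*₀ Ideal GaussianInt} {𝔣 : Ideal (𝓞 M)}
    {φ : Ideal (𝓞 M) →*₀ ℂ} {R : ℕ}
    (c : (Σ q : ZI, MulChar (RQ q) ℂ) → Ideal (𝓞 M))
    (ψ : (Σ q : ZI, MulChar (RQ q) ℂ) → Ideal (𝓞 M) →*₀ ℂ) {X Y : ℕ}
    (htw : ∀ p ∈ sF R X Y, TwD Nm 𝔣 φ R p.1 (chiZ p.1 p.2) (c p) (ψ p)) (T : ℝ) (hT : 1 ≤ T) :
    3 * ∑ p ∈ sF R X Y, wF p * (Ns (LL M (ψ p)) T (2 * T) : ℝ) ≤
      ∑ p ∈ sF R X Y, wF p * (NN (LL M (ψ p)) T (2 * T) : ℝ) +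
      2 * ∑ p ∈ sF R X Y, wF p * (Nu (LL M (ψ p)) T (2 * T) : ℝ) := by
  obtain ⟨A, hA, hgood⟩ := Pool.Agent.Y773.IQ.good M
  rw [Finset.mul_sum, Finset.mul_sum, ← Finset.sum_add_distrib]
  refine Finset.sum_le_sum fun p hp => ?_
  have htd := htw p hp
  obtain ⟨F, hF, hFL, hG⟩ := hgood _ _ htd.ne_top (toG htd.prim)
  have e := LL_eq M hF hFL
  rw [e]
  have hn1 : (1 : ℝ) ≤ (Ideal.absNorm (c p) : ℝ) := by
    have : Ideal.absNorm (c p) ≠ 0 := by
      rw [Ne, Ideal.absNorm_eq_zero_iff]; exact htd.prim.ne_bot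
    exact_mod_cast Nat.one_le_iff_ne_zero.mpr this
  have hQ : (1 : ℝ) ≤ (Ideal.absNorm (c p) : ℝ) ^ (1 / (Module.finrank ℚ M : ℝ)) :=
    Real.one_le_rpow hn1 (by positivity)
  have h1 := nu_lower hA hQ hG T (2 * T) hT
  have hw : 0 ≤ wF p := by
    unfold wF
    positivity
  calc 3 * (wF p * (Ns F T (2 * T) : ℝ)) = wF p * (3 * (Ns F T (2 * T) : ℝ)) := by ring
    _ ≤ wF p * (NN F T (2 * T) + 2 * Nu F T (2 * T)) := mul_le_mul_of_nonneg_left h1 hw
    _ = _ := by ring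

/-- the twisted character is ramified at the primes above `p` and unramified at those above the
complex conjugate of `p` -/
theorem ram {σ : M ≃ₐ[ℚ] M} {Nm : Ideal (𝓞 M) →*₀ Ideal GaussianInt} (tl : Tls σ Nm)
    {𝔣 : Ideal (𝓞 M)} {φ : Ideal (𝓞 M) →*₀ ℂ} {R : ℕ} (hRf : (R : 𝓞 M) ∈ 𝔣)
    {q : GaussianInt} {χ : GaussianInt →* ℂ} {𝔠 : Ideal (𝓞 M)} {ψ : Ideal (𝓞 M) →*₀ ℂ}
    (h : TwD Nm 𝔣 φ R q χ 𝔠 ψ) {p : GaussianInt} (p1 : Prime p) (p2 : p ∣ q)
    (p3 : ¬ p ∣ (R : GaussianInt)) (p4 : ¬ star p ∣ q) (P : Ideal (𝓞 M)) (hP : Prime P) :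
    (algebraMap GaussianInt (𝓞 M) p ∈ P → ψ P = 0) ∧
      (algebraMap GaussianInt (𝓞 M) (star p) ∈ P → ψ P ≠ 0) := by
  have hup : ∀ z : GaussianInt, algebraMap GaussianInt (𝓞 M) z ∈ P ↔ P ∣ up M z := by
    intro z
    rw [Ideal.dvd_iff_le]
    exact (Ideal.span_singleton_le_iff_mem _).symm
  constructor
  · intro hp
    by_contra h0
    have h1 := (h.prim.supp P hP.ne_zero).1 h0
    have hcop : IsCoprime p (R : GaussianInt) :=
      (Irreducible.coprime_iff_not_dvd p1.irreducible).2 p3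
    have h2 : P ∣ 𝔠 := ((hup p).1 hp).trans (h.big p p2 hcop)
    exact hP.not_unit (h1.isUnit_of_dvd' dvd_rfl h2)
  · intro hp
    refine (h.prim.supp P hP.ne_zero).2 ?_
    by_contra h0
    have hmax : P.IsMaximal := (Ideal.isPrime_of_prime hP).isMaximal hP.ne_zero
    have h1 : P ∣ 𝔠 := by
      rw [Ideal.dvd_iff_le]
      rw [Ideal.isCoprime_iff_sup_eq] at h0
      have h2 := hmax.eq_of_le h0 le_sup_left
      rw [h2]
      exact le_sup_right
    obtain ⟨p0, o1, o2, o3⟩ := tl.ovr P hP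
    have hps : Prime (star p) := by
      have := (MulEquiv.prime_iff (starMulAut (R := GaussianInt)) (p := p)).2 p1
      exact this
    have h3 : p0 ∣ star p := o3 _ ((hup _).1 hp)
    have h4 : star p ∣ p0 := (o1.associated_of_dvd hps h3).symm.dvd
    rcases hP.dvd_or_dvd (h1.trans h.dvd) with h5 | h5
    · have h6 : P ∣ up M (R : GaussianInt) := by
        refine h5.trans ?_
        rw [Ideal.dvd_iff_le]
        unfold up
        rw [Ideal.span_singleton_le_iff_mem, map_natCast]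
        exact hRf
      have h7 : star p ∣ (R : GaussianInt) := h4.trans (o3 _ h6)
      apply p3
      have h8 := map_dvd (starMulAut (R := GaussianInt)) h7
      have e1 : (starMulAut (R := GaussianInt)) (star p) = p := star_star p
      have e2 : (starMulAut (R := GaussianInt)) (R : GaussianInt) = (R : GaussianInt) :=
        star_natCast R
      rw [e1, e2] at h8
      exact h8
    · exact p4 (h4.trans (o3 _ h5))

end

end Pool.Agent.Y773.D4
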