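import Pool.Agent.H82R3.AR.FamB
import Pool.Agent.Y773.D4.Def

/-!
# The large sieve inequality for the family, in terms of the norms of the ideals of `M`
-/

set_option autoImplicit false

open NumberField Filter Topology

namespace Pool.Agent.Y773.D4

open Pool.Agent.Y773 (VM)
open Pool.Agent.Y773.G (IsPrimChar)
open Pool.Agent.H82R3.AR (FS PFs Wm)
open H385 (ZI RQ chiZ PrimC nrm BX SC wF im1)

open Classical in
/-- the family -/
noncomputable def sF (R X Y : ℕ) : Finset (Σ q : ZI, MulChar (RQ q) ℂ) :=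
  (FS X Y).filter fun p => Gd R p.1

lemma wF_nn (p : Σ q : ZI, MulChar (RQ q) ℂ) : 0 ≤ wF p := by
  unfold wF
  positivity

lemma mem_BX' (N : ℕ) (n : ZI) : n ∈ BX N ↔ n ≠ 0 ∧ n.norm.natAbs ≤ N := by
  rw [H385.H10.mem_BX]
  constructor
  · rintro ⟨h1, h2⟩
    refine ⟨?_, h2⟩
    rintro rfl
    unfold nrm at h1
    simp at h1
  · rintro ⟨h1, h2⟩
    exact ⟨H385.H10.nrm_pos h1, h2⟩

/-- sums over the family of functions of the modulus -/
lemma fs_q (X Y : ℕ) (f : ZI → ℝ) (hf : ∀ q, q ≠ 0 → 0 ≤ f q) :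
    ∑ p ∈ FS X Y, wF p * f p.1 ≤
      ∑ q ∈ (BX Y).filter (fun q => X < nrm q), f q / (nrm q : ℝ) := by
  unfold FS
  rw [Finset.sum_sigma]
  refine Finset.sum_le_sum fun q hq => ?_
  have hq0 : q ≠ 0 := ((mem_BX' Y q).1 (Finset.mem_filter.1 hq).1).1
  have hn : 0 < (nrm q : ℝ) := by exact_mod_cast H385.H10.nrm_pos hq0
  have hcard : ((PFs q).card : ℝ) ≤ nrm q := by
    have h1 : PFs q = Pool.Agent.H82R3.AR.hg6e_P q := by
      ext χ
      rw [Pool.Agent.H82R3.AR.hg8a_PFs hq0, Pool.Agent.H82R3.AR.hg6e_mem_P hq0]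
    rw [h1, Pool.Agent.H82R3.AR.hg6e_card_P hq0]
    exact Pool.Agent.H82R3.AR.hg6e_m_le hq0
  have h2 : ∑ χ ∈ PFs q, wF ⟨q, χ⟩ * f q = ((PFs q).card : ℝ) * (1 / (nrm q : ℝ) ^ 2 * f q) := by
    have h3 : ∀ χ ∈ PFs q, wF ⟨q, χ⟩ * f q = 1 / (nrm q : ℝ) ^ 2 * f q := fun χ _ => rfl
    rw [Finset.sum_congr rfl h3, Finset.sum_const, nsmul_eq_mul]
  calc ∑ χ ∈ PFs q, wF ⟨q, χ⟩ * f q = ((PFs q).card : ℝ) * (1 / (nrm q : ℝ) ^ 2 * f q) := h2
    _ ≤ (nrm q : ℝ) * (1 / (nrm q : ℝ) ^ 2 * f q) := by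
        refine mul_le_mul_of_nonneg_right hcard ?_
        have := hf q hq0
        positivity
    _ = f q / (nrm q : ℝ) := by
        field_simp

/-- the coefficients of the twists -/
noncomputable def SS {M : Type} [Field M] [NumberField M] [Algebra GaussianInt (𝓞 M)]
    (Nm : Ideal (𝓞 M) →*₀ Ideal GaussianInt) (φ : Ideal (𝓞 M) →*₀ ℂ) (χ : GaussianInt →* ℂ)
    (m : ℕ) : ℂ :=
  ∑ᶠ 𝔞 ∈ {𝔞 : Ideal (𝓞 M) | Ideal.absNorm 𝔞 = m}, (VM 𝔞 : ℂ) * (φ 𝔞 * chI χ (Nm 𝔞))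

/-- the mass of the family -/
noncomputable def WF (R X Y : ℕ) : ℝ := ∑ p ∈ sF R X Y, wF p

lemma WF_le (R X Y : ℕ) : WF R X Y ≤ Wm X Y := by
  classical
  unfold WF sF
  rw [Pool.Agent.H82R3.AR.fs_mass]
  exact Finset.sum_le_sum_of_subset_of_nonneg (Finset.filter_subset _ _) fun p _ _ => wF_nn p

/-- **the mass of the family**: almost everything -/
theorem mass (hmass : St_MASS) (R : ℕ) (hR : R ≠ 0) (ε : ℝ) (hε : 0 < ε) (W0 : ℝ) :
    ∃ κ : ℝ, 1 ≤ κ ∧ ∀ X Y : ℕ, 1 ≤ X → κ * X ≤ Y →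
      W0 ≤ Wm X Y ∧ 0 < Wm X Y ∧ (1 - ε) * Wm X Y ≤ WF R X Y ∧
        Real.log ((Y : ℝ) / X) + 1 ≤ κ * Wm X Y := by
  classical
  obtain ⟨d, hd, ⟨C1, hC1, h1⟩, h2⟩ := hmass R hR
  obtain ⟨c, C', hc, hC', hW⟩ := Pool.Agent.H82R3.AR.Wm_inf
  obtain ⟨C2, hC2, h3⟩ := h2 (c * ε / 2) (by positivity)
  obtain ⟨W1, hW1⟩ : ∃ x : ℝ, x = |W0| + C' + 2 * C2 / ε + 1 := ⟨_, rfl⟩
  have hW1p : 1 ≤ W1 := by
    have := abs_nonneg W0
    have : 0 ≤ 2 * C2 / ε := by positivity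
    linarith
  obtain ⟨κ, hκ⟩ : ∃ x : ℝ, x = max (Real.exp ((W1 + C') / c)) ((1 + C' / 1) / c + 1 + 1) := ⟨_, rfl⟩
  have hκ1 : 1 ≤ κ := by
    rw [hκ]
    refine le_max_of_le_left (Real.one_le_exp ?_)
    positivity
  refine ⟨κ, hκ1, fun X Y hX hXY => ?_⟩
  have hXp : (0 : ℝ) < X := by exact_mod_cast hX
  have hXY' : X ≤ Y := by
    have h4 : (X : ℝ) ≤ Y := (le_mul_of_one_le_left hXp.le hκ1).trans hXY
    exact_mod_cast h4
  have hlog : (W1 + C') / c ≤ Real.log ((Y : ℝ) / X) := by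
    rw [Real.le_log_iff_exp_le (by
      have : (0 : ℝ) < Y := by exact_mod_cast (lt_of_lt_of_le hX hXY')
      positivity), le_div_iff₀ hXp]
    refine le_trans ?_ hXY
    rw [hκ]
    exact mul_le_mul_of_nonneg_right (le_max_left _ _) hXp.le
  have hWm := hW X Y hX hXY'
  have hWm1 : W1 ≤ Wm X Y := by
    rw [div_le_iff₀ hc] at hlog
    linarith
  have hWm0 : 0 < Wm X Y := by linarith
  refine ⟨?_, hWm0, ?_, ?_⟩
  · have := le_abs_self W0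
    have : 0 ≤ 2 * C2 / ε := by positivity
    linarith
  · -- the bad part
    have hsplit : Wm X Y = WF R X Y + ∑ p ∈ (FS X Y).filter (fun p => ¬ Gd R p.1), wF p := by
      rw [Pool.Agent.H82R3.AR.fs_mass]
      unfold WF sF
      exact (Finset.sum_filter_add_sum_filter_not _ _ _).symm
    have hbad : ∑ p ∈ (FS X Y).filter (fun p => ¬ Gd R p.1), wF p ≤
        c * ε / 2 * Real.log ((Y : ℝ) / X) + C2 := by
      have e1 : ∑ p ∈ (FS X Y).filter (fun p => ¬ Gd R p.1), wF p =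
          ∑ p ∈ FS X Y, wF p * (if Gd R p.1 then 0 else 1) := by
        rw [Finset.sum_filter]
        refine Finset.sum_congr rfl fun p _ => ?_
        by_cases h : Gd R p.1
        · simp [h]
        · simp [h]
      rw [e1]
      refine (fs_q X Y (fun q => if Gd R q then 0 else 1) (fun q _ => by
        split_ifs <;> norm_num)).trans ?_
      refine le_trans (le_of_eq ?_) (h3 X Y ((BX Y).filter (fun q => X < nrm q)) hX hXY' ?_)
      · rw [Finset.sum_filter (s := (BX Y).filter (fun q => X < nrm q))]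
        refine Finset.sum_congr rfl fun q _ => ?_
        by_cases h : Gd R q
        · rw [if_pos h, if_neg (not_not.mpr h), zero_div]
        · rw [if_neg h, if_pos h]
          rfl
      · intro q hq
        rw [Finset.mem_filter] at hq
        exact ⟨hq.2, ((mem_BX' Y q).1 hq.1).2⟩
    have h5 : c * Real.log ((Y : ℝ) / X) ≤ Wm X Y + C' := by linarith
    have h6 : c * ε / 2 * Real.log ((Y : ℝ) / X) ≤ ε / 2 * (Wm X Y + C') := by
      have := mul_le_mul_of_nonneg_left h5 (show 0 ≤ ε / 2 by positivity)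
      linarith
    have h7 : ε / 2 * C' + C2 ≤ ε / 2 * Wm X Y := by
      have h8 : C' + 2 * C2 / ε ≤ Wm X Y := by
        have := abs_nonneg W0
        linarith
      have h9 := mul_le_mul_of_nonneg_left h8 (show 0 ≤ ε / 2 by positivity)
      have h10 : ε / 2 * (C' + 2 * C2 / ε) = ε / 2 * C' + C2 := by
        field_simp
      linarith
    linarith
  · have hκ2 : (1 + C' / 1) / c + 1 + 1 ≤ κ := by rw [hκ]; exact le_max_right _ _
    have h5 : Real.log ((Y : ℝ) / X) ≤ (Wm X Y + C') / c := by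
      rw [le_div_iff₀ hc]
      linarith
    have hW1' : 1 ≤ Wm X Y := hW1p.trans hWm1
    have h6 : (Wm X Y + C') / c ≤ (1 + C' / 1) / c * Wm X Y := by
      rw [div_one, div_mul_eq_mul_div]
      refine div_le_div_of_nonneg_right ?_ hc.le
      have : C' ≤ C' * Wm X Y := le_mul_of_one_le_right hC'.le hW1'
      linarith
    have h7 := mul_le_mul_of_nonneg_right hκ2 hWm0.le
    have h8 : ((1 + C' / 1) / c + 1 + 1) * Wm X Y =
        (1 + C' / 1) / c * Wm X Y + Wm X Y + Wm X Y := by ring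
    linarith

lemma rpow_bound {X Y F0 ε0 : ℝ} (hX : 1 ≤ X) (hY : 1 ≤ Y) (hF : 1 ≤ F0) (h0 : 0 < ε0) (h1 : ε0 < 1)
    (hXY : Y ≤ X ^ (1 + ε0 / 2)) : (F0 * Y ^ 2) ^ (1 - ε0) ≤ F0 * (X ^ (1 - ε0 / 2)) ^ 2 := by
  have hX0 : 0 < X := by linarith
  have hY0 : 0 < Y := by linarith
  have hF0 : 0 < F0 := by linarith
  have a1 : F0 ^ (1 - ε0) ≤ F0 := by
    calc F0 ^ (1 - ε0) ≤ F0 ^ (1 : ℝ) := Real.rpow_le_rpow_of_exponent_le hF (by linarith)
      _ = F0 := Real.rpow_one _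
  have a2 : (Y ^ 2) ^ (1 - ε0) ≤ (X ^ (1 - ε0 / 2)) ^ 2 := by
    have b1 : (Y ^ 2) ^ (1 - ε0) = (Y ^ (1 - ε0)) ^ 2 := by
      rw [← Real.rpow_natCast, ← Real.rpow_natCast, ← Real.rpow_mul hY0.le, ← Real.rpow_mul hY0.le]
      congr 1
      ring
    rw [b1]
    refine pow_le_pow_left₀ (by positivity) ?_ 2
    calc Y ^ (1 - ε0) ≤ (X ^ (1 + ε0 / 2)) ^ (1 - ε0) :=
          Real.rpow_le_rpow hY0.le hXY (by linarith)
      _ = X ^ ((1 + ε0 / 2) * (1 - ε0)) := by rw [← Real.rpow_mul hX0.le]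
      _ ≤ X ^ (1 - ε0 / 2) := Real.rpow_le_rpow_of_exponent_le hX (by nlinarith)
  rw [Real.mul_rpow hF0.le (by positivity)]
  exact mul_le_mul a1 a2 (by positivity) hF0.le

/-- **the large sieve inequality for the family** -/
theorem lsD (hlsm : St_LSM) (hmass : St_MASS) {M : Type} [Field M] [NumberField M]
    [Algebra GaussianInt (𝓞 M)] {σ : M ≃ₐ[ℚ] M} {Nm : Ideal (𝓞 M) →*₀ Ideal GaussianInt}
    (hrel : Rel σ Nm) (φ : Ideal (𝓞 M) →*₀ ℂ) (R : ℕ) (hR : R ≠ 0) (D : ℝ) (hD : 1 < D)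
    (F0 ε0 : ℝ) (hF0 : 1 ≤ F0) (h0 : 0 < ε0) (h1 : ε0 < 1) :
    ∃ (P : ℕ) (κ X0 : ℝ), 1 ≤ P ∧ 1 ≤ κ ∧ 1 ≤ X0 ∧ ∀ X Y : ℕ, 1 ≤ X → X0 ≤ X → κ * X ≤ Y →
      (Y : ℝ) ≤ (X : ℝ) ^ (1 + ε0 / 2) →
      0 < WF R X Y ∧ Wm X Y ≤ 2 * WF R X Y ∧ Real.log ((Y : ℝ) / X) + 1 ≤ κ * Wm X Y ∧
      ∀ N : ℕ, (N : ℝ) ≤ (F0 * (Y : ℝ) ^ 2) ^ (1 - ε0) → ∀ v : ℕ → ℂ,
        ∑ p ∈ sF R X Y, wF p * ‖∑ m ∈ Finset.Icc 1 N, v m *
          (if Nat.Coprime m P then SS Nm φ (chiZ p.1 p.2) m else 0)‖ ^ 2 ≤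
        D * WF R X Y * ∑ m ∈ Finset.Icc 1 N, ‖v m‖ ^ 2 *
          (ArithmeticFunction.vonMangoldt m * ‖cS Nm φ m‖) ^ 2 := by
  classical
  obtain ⟨ε1, hε1⟩ : ∃ x : ℝ, x = min ((D - 1) / 10) (1 / 10) := ⟨_, rfl⟩
  have hε1p : 0 < ε1 := by
    rw [hε1]
    exact lt_min (by linarith) (by norm_num)
  have hε1a : ε1 ≤ (D - 1) / 10 := by rw [hε1]; exact min_le_left _ _
  have hε1b : ε1 ≤ 1 / 10 := by rw [hε1]; exact min_le_right _ _
  obtain ⟨P, hP, C, hC, hls⟩ := Pool.Agent.H82R3.AR.hg_ls ε1 hε1p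
  obtain ⟨κ, hκ, hm⟩ := mass hmass R hR ε1 hε1p (C / ε1)
  obtain ⟨X0, hX0⟩ : ∃ x : ℝ, x =
      max 1 ((2 * Real.pi * Real.sqrt F0 / Real.log (1 + ε1)) ^ (2 / ε0)) := ⟨_, rfl⟩
  have hlog1 : 0 < Real.log (1 + ε1) := Real.log_pos (by linarith)
  refine ⟨P.norm.natAbs, κ, X0, ?_, hκ, by rw [hX0]; exact le_max_left _ _, ?_⟩
  · have := H385.H10.nrm_pos hP
    exact this
  intro X Y hX hX0X hκX hYX
  obtain ⟨m1, m2, m3, m4⟩ := hm X Y hX hκX
  have hXp : (1 : ℝ) ≤ X := by exact_mod_cast hX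
  have hXY' : X ≤ Y := by
    have h4 : (X : ℝ) ≤ Y := (le_mul_of_one_le_left (by linarith) hκ).trans hκX
    exact_mod_cast h4
  have hYp : (1 : ℝ) ≤ Y := hXp.trans (by exact_mod_cast hXY')
  have hCW : C ≤ ε1 * Wm X Y := by
    rw [div_le_iff₀ hε1p] at m1
    linarith
  have hW9 : (1 - ε1) * Wm X Y ≤ WF R X Y := m3
  have hWF0 : 0 < WF R X Y := lt_of_lt_of_le (mul_pos (by linarith) m2) m3
  refine ⟨hWF0, ?_, m4, ?_⟩
  · have : (1 / 2) * Wm X Y ≤ (1 - ε1) * Wm X Y :=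
      mul_le_mul_of_nonneg_right (by linarith) m2.le
    linarith
  intro N hN v
  -- the exponential factor
  have hE : Real.exp (2 * Real.pi * Real.sqrt N / X) ≤ 1 + ε1 := by
    rw [← Real.le_log_iff_exp_le (by linarith)]
    have e1 : Real.sqrt N ≤ Real.sqrt F0 * (X : ℝ) ^ (1 - ε0 / 2) := by
      rw [Real.sqrt_le_left (by positivity), mul_pow, Real.sq_sqrt (by linarith)]
      exact hN.trans (rpow_bound hXp hYp hF0 h0 h1 hYX)
    have e2 : 2 * Real.pi * Real.sqrt F0 / Real.log (1 + ε1) ≤ (X : ℝ) ^ (ε0 / 2) := by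
      have e3 : (2 * Real.pi * Real.sqrt F0 / Real.log (1 + ε1)) ^ (2 / ε0) ≤ X :=
        (le_max_right _ _).trans (hX0 ▸ hX0X)
      have hb : 0 ≤ 2 * Real.pi * Real.sqrt F0 / Real.log (1 + ε1) := by positivity
      calc 2 * Real.pi * Real.sqrt F0 / Real.log (1 + ε1) =
          ((2 * Real.pi * Real.sqrt F0 / Real.log (1 + ε1)) ^ (2 / ε0)) ^ (ε0 / 2) := by
            rw [← Real.rpow_mul hb]
            have : 2 / ε0 * (ε0 / 2) = 1 := by field_simp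
            rw [this, Real.rpow_one]
        _ ≤ _ := Real.rpow_le_rpow (by positivity) e3 (by positivity)
    rw [div_le_iff₀ hlog1] at e2
    have hX0p : (0 : ℝ) < X := by linarith
    have e4 : (X : ℝ) ^ (1 - ε0 / 2) * (X : ℝ) ^ (ε0 / 2) = X := by
      rw [← Real.rpow_add hX0p]
      have : 1 - ε0 / 2 + ε0 / 2 = 1 := by ring
      rw [this, Real.rpow_one]
    have hxp : 0 < (X : ℝ) ^ (1 - ε0 / 2) := Real.rpow_pos_of_pos hX0p _
    rw [div_le_iff₀ hX0p]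
    calc 2 * Real.pi * Real.sqrt N ≤ 2 * Real.pi * (Real.sqrt F0 * (X : ℝ) ^ (1 - ε0 / 2)) :=
          mul_le_mul_of_nonneg_left e1 (by positivity)
      _ = (2 * Real.pi * Real.sqrt F0) * (X : ℝ) ^ (1 - ε0 / 2) := by ring
      _ ≤ ((X : ℝ) ^ (ε0 / 2) * Real.log (1 + ε1)) * (X : ℝ) ^ (1 - ε0 / 2) :=
          mul_le_mul_of_nonneg_right e2 hxp.le
      _ = Real.log (1 + ε1) * ((X : ℝ) ^ (1 - ε0 / 2) * (X : ℝ) ^ (ε0 / 2)) := by ring
      _ = Real.log (1 + ε1) * X := by rw [e4]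
  obtain ⟨A, hA⟩ : ∃ x : ℝ, x = (1 + ε1) * ((1 + ε1) * Wm X Y + C) := ⟨_, rfl⟩
  have hA0 : 0 ≤ A := by rw [hA]; positivity
  have hAD : A ≤ D * WF R X Y := by
    have c1 : A ≤ (1 + ε1) * ((1 + 2 * ε1) * Wm X Y) := by
      rw [hA]
      refine mul_le_mul_of_nonneg_left ?_ (by linarith)
      linarith
    have c2 : (1 + ε1) * (1 + 2 * ε1) ≤ D * (1 - ε1) := by
      have : 1 + 10 * ε1 ≤ D := by linarith
      have h5 := mul_le_mul_of_nonneg_right this (show 0 ≤ 1 - ε1 by linarith)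
      nlinarith
    have c3 := mul_le_mul_of_nonneg_right c2 m2.le
    have c4 := mul_le_mul_of_nonneg_left m3 (show 0 ≤ D by linarith)
    calc A ≤ (1 + ε1) * ((1 + 2 * ε1) * Wm X Y) := c1
      _ = (1 + ε1) * (1 + 2 * ε1) * Wm X Y := by ring
      _ ≤ D * (1 - ε1) * Wm X Y := c3
      _ = D * ((1 - ε1) * Wm X Y) := by ring
      _ ≤ _ := c4
  have key := hlsm M σ Nm hrel φ (Σ q : ZI, MulChar (RQ q) ℂ) (sF R X Y) wF
    (fun p => chiZ p.1 p.2) P N A (BX N) (fun p hp => ?_) hA0 (mem_BX' N) (fun b hb => ?_) v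
  · refine le_trans key ?_
    exact mul_le_mul_of_nonneg_right hAD (Finset.sum_nonneg fun m _ => by positivity)
  · have h5 := (Pool.Agent.H82R3.AR.fs_mem X Y p).1 (Finset.mem_filter.1 hp).1
    exact ⟨wF_nn p, h5.2.2.2.2⟩
  · have h5 := hls X Y N b hX hXY' hb
    have h6 : ∑ p ∈ sF R X Y, wF p * ‖∑ n ∈ BX N, b n * chiZ p.1 p.2 n‖ ^ 2 ≤
        ∑ p ∈ FS X Y, wF p * ‖SC (BX N) b p.1 p.2‖ ^ 2 :=
      Finset.sum_le_sum_of_subset_of_nonneg (Finset.filter_subset _ _) fun p _ _ =>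
        mul_nonneg (wF_nn p) (by positivity)
    refine h6.trans (h5.trans ?_)
    refine mul_le_mul_of_nonneg_right ?_ (Finset.sum_nonneg fun _ _ => by positivity)
    have h7 := mul_le_mul_of_nonneg_right hE
      (show 0 ≤ 4 * ((1 + ε1) * Wm X Y + C) by positivity)
    refine h7.trans (le_of_eq ?_)
    rw [hA]
    ring

lemma nrm_dvd_le {a b : ZI} (hb : b ≠ 0) (h : a ∣ b) : a.norm.natAbs ≤ b.norm.natAbs := by
  obtain ⟨c, rfl⟩ := h
  rw [Zsqrtd.norm_mul, Int.natAbs_mul]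
  refine Nat.le_mul_of_pos_right _ ?_
  have hc : c ≠ 0 := right_ne_zero_of_mul hb
  exact H385.H10.nrm_pos hc

/-- the part of the modulus which is not prime to `R`, on average -/
theorem cnd (hmass : St_MASS) (R : ℕ) (hR : R ≠ 0) : ∃ d : ZI → ZI,
    (∀ q : ZI, q ≠ 0 → d q ≠ 0 ∧ d q ∣ q ∧ IsCoprime (d q) (R : ZI)) ∧
    ∃ C : ℝ, 0 < C ∧ ∀ X Y : ℕ, 1 ≤ X → X ≤ Y →
      ∑ p ∈ sF R X Y, wF p * (Real.log (nrm p.1 : ℝ) - Real.log (nrm (d p.1) : ℝ)) ≤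
        C * (Real.log ((Y : ℝ) / X) + 1) := by
  classical
  obtain ⟨d, hd, ⟨C1, hC1, h1⟩, -⟩ := hmass R hR
  refine ⟨d, hd, C1, hC1, fun X Y hX hXY => ?_⟩
  have hnn : ∀ q : ZI, q ≠ 0 → 0 ≤ Real.log (nrm q : ℝ) - Real.log (nrm (d q) : ℝ) := by
    intro q hq
    obtain ⟨a1, a2, -⟩ := hd q hq
    have h2 : (0 : ℝ) < nrm (d q) := by exact_mod_cast H385.H10.nrm_pos a1
    have h3 : (nrm (d q) : ℝ) ≤ nrm q := by exact_mod_cast nrm_dvd_le hq a2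
    have := Real.log_le_log h2 h3
    linarith
  have h4 : ∑ p ∈ sF R X Y, wF p * (Real.log (nrm p.1 : ℝ) - Real.log (nrm (d p.1) : ℝ)) ≤
      ∑ p ∈ FS X Y, wF p * (Real.log (nrm p.1 : ℝ) - Real.log (nrm (d p.1) : ℝ)) := by
    refine Finset.sum_le_sum_of_subset_of_nonneg (Finset.filter_subset _ _) fun p hp _ => ?_
    have h5 := (Pool.Agent.H82R3.AR.fs_mem X Y p).1 hp
    exact mul_nonneg (wF_nn p) (hnn p.1 h5.1)
  refine h4.trans ((fs_q X Y _ hnn).trans ?_)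
  exact h1 X Y ((BX Y).filter (fun q => X < nrm q)) hX hXY fun q hq => by
    rw [Finset.mem_filter] at hq
    exact ⟨hq.2, ((mem_BX' Y q).1 hq.1).2⟩

end Pool.Agent.Y773.D4
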